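import Pool.Agent.P.MP_c19edd_an.Sharp

/-! Alternating perturbations of the geometric series, among them the series of Jones. -/

open Set Filter Topology

namespace Pool.Agent.P.MP_c19edd_an.Gen

theorem alt {η : ℕ → ℝ} (h0 : ∀ n, 0 < η n) (h1 : η 1 < 1) (ha : Antitone η)
    (hl : Tendsto η atTop (𝓝 0)) :
    Nonempty ({y : ℝ | ∃ A : Set ℕ, (∀ n ∈ A, 1 ≤ n) ∧
      HasSum (fun n : A => hh n + (-1) ^ (n : ℕ) * (hh n * η n)) y} ≃ₜ cantorSet) := by
  have hy : ∀ n, 0 < hh n * η n := fun n => mul_pos (hh_pos n) (h0 n)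
  have hab : ∀ n, |(-1) ^ n * (hh n * η n)| = hh n * η n := fun n => by
    rw [abs_mul, abs_neg_one_pow, one_mul, abs_of_pos (hy n)]
  have hs : Summable fun n => (-1) ^ n * (hh n * η n) :=
    Summable.of_norm_bounded (summable_geometric_two.mul_right (η 0)) fun n =>
      (hab n).le.trans (mul_le_mul_of_nonneg_left (ha (Nat.zero_le n)) (hh_pos n).le)
  have hs' := fun n => (hs.comp_injective (add_right_injective (n + 1))).hasSum
  have ht : ∀ n, ∑' i, (hh (n + 1 + i) + (-1) ^ (n + 1 + i) * (hh (n + 1 + i) * η (n + 1 + i))) =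
      hh n + ∑' i, (-1) ^ (n + 1 + i) * (hh (n + 1 + i) * η (n + 1 + i)) := fun n =>
    ((hasSum_hh n).add (hs' n)).tsum_eq
  have hρ : ∀ n, ∑' i, (-1) ^ (n + 1 + i) * (hh (n + 1 + i) * η (n + 1 + i)) ≤ hh n * η n :=
    fun n => hasSum_le (fun i => (le_abs_self _).trans ((hab _).le.trans
      (mul_le_mul_of_nonneg_left (ha (by omega)) (hh_pos _).le))) (hs' n)
      ((hasSum_hh n).mul_right _)
  have hlim : Tendsto (fun n => 2 ^ n * (hh n + (-1) ^ n * (hh n * η n))) atTop (𝓝 1) := by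
    have h : Tendsto (fun n => (-1) ^ n * η n) atTop (𝓝 0) :=
      squeeze_zero_norm (fun n => by
        rw [Real.norm_eq_abs, abs_mul, abs_neg_one_pow, one_mul, abs_of_pos (h0 n)]) hl
    have h2 := (tendsto_const_nhds (x := (1 : ℝ))).add h
    rw [add_zero] at h2
    refine h2.congr fun n => ?_
    rw [mul_add, mul_left_comm, ← mul_assoc (2 ^ n), pow_hh, one_mul]
  refine crit (x := fun n => hh n + (-1) ^ n * (hh n * η n)) (fun n hn => ?_) (ratio_of_lim hlim)
    (B := 2) ((hlim.eventually (gt_mem_nhds one_lt_two)).mono fun n hn => hn.le).frequently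
    fun K hK => ?_
  · have := neg_abs_le ((-1) ^ n * (hh n * η n))
    have := mul_lt_of_lt_one_right (hh_pos n) ((ha hn).trans_lt h1)
    rw [hab] at *
    linarith
  obtain ⟨d, hd⟩ := (hh_zero.eventually (gt_mem_nhds (inv_pos.2 (mul_pos two_pos hK)))).exists
  refine ⟨d + 2, 0, fun n _ => ?_⟩
  obtain ⟨m, m1, m2, m3⟩ : ∃ m, n < m ∧ m ≤ n + 2 ∧ Even m := by
    rcases Nat.even_or_odd n with h | h
    exacts [⟨n + 2, by omega, le_rfl, h.add even_two⟩, ⟨n + 1, by omega, by omega, h.add_one⟩]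
  have g1 := tail_succ hs m
  have g2 := hρ (m + 1)
  rw [m3.add_one.neg_one_pow] at g1
  have g3 := hy m
  refine ⟨m, m1, by omega, ?_, fun j hj => ?_⟩
  · simp only [ht, m3.neg_one_pow]
    linarith
  · have g4 := hρ j
    have g5 := neg_abs_le ((-1) ^ j * (hh j * η j))
    have g6 : hh j * η j ≤ hh m * hh d * η m := by
      refine mul_le_mul ?_ (ha (by omega)) (h0 _).le (mul_pos (hh_pos _) (hh_pos _)).le
      rw [hh, hh, hh, ← pow_add]
      exact hh_anti (by omega)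
    have g7 : 2 * K * hh d ≤ 1 :=
      (mul_le_mul_of_nonneg_left hd.le (by positivity)).trans (mul_inv_cancel₀ (by positivity)).le
    rw [hab] at g5
    simp only [ht, m3.neg_one_pow]
    have g8 := mul_le_mul_of_nonneg_left g7 g3.le
    nlinarith

theorem jones : Nonempty ({y : ℝ | ∃ A : Set ℕ, (∀ n ∈ A, 1 ≤ n) ∧
    HasSum (fun n : A => (1 : ℝ) / 2 ^ (n : ℕ) + (-1) ^ (n : ℕ) / 3 ^ (n : ℕ)) y} ≃ₜ cantorSet) := by
  have h := alt (η := fun n => (2 / 3) ^ n) (fun n => by positivity) (by norm_num)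
    (fun a b h => pow_le_pow_of_le_one (by norm_num) (by norm_num) h)
    (tendsto_pow_atTop_nhds_zero_of_lt_one (by norm_num) (by norm_num))
  have e : ∀ n : ℕ, hh n + (-1) ^ n * (hh n * (2 / 3) ^ n) = 1 / 2 ^ n + (-1) ^ n / 3 ^ n :=
    fun n => by
      rw [hh, ← mul_pow, show (1 / 2 * (2 / 3) : ℝ) = 1 / 3 by norm_num, one_div_pow, one_div_pow,
        mul_one_div]
  rw [TT_eq (x := fun n => hh n + (-1) ^ n * (hh n * (2 / 3) ^ n)), funext e] at h
  rwa [TT_eq (x := fun n => 1 / 2 ^ n + (-1) ^ n / 3 ^ n)]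

end Pool.Agent.P.MP_c19edd_an.Gen
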