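import Mathlib

/-!
Combinatorial core: a family of tail sets `T n` with `T n ⊆ [0, r n]` and
`T n ⊆ T (n+1) ∪ (x (n+1) + T (n+1))` has `T 0` with empty interior, for the sequence
`x n = 2^-n + (-3)^-n`.
-/

set_option autoImplicit false

open Set

namespace Pool.Agent.P.MP_c19edd_an

noncomputable def hh (n : ℕ) : ℝ := (1 / 2) ^ n
noncomputable def ee (n : ℕ) : ℝ := (1 / 3) ^ n
noncomputable def xx (n : ℕ) : ℝ := 1 / 2 ^ n + (-1) ^ n / 3 ^ n
noncomputable def rr (n : ℕ) : ℝ := 1 / 2 ^ n - (-1) ^ n / 3 ^ n / 4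

theorem hh_pos (n : ℕ) : 0 < hh n := by unfold hh; positivity
theorem ee_pos (n : ℕ) : 0 < ee n := by unfold ee; positivity
theorem hh_succ (n : ℕ) : hh n = 2 * hh (n + 1) := by unfold hh; rw [pow_succ]; ring
theorem ee_succ (n : ℕ) : ee n = 3 * ee (n + 1) := by unfold ee; rw [pow_succ]; ring
theorem hh_add (n k : ℕ) : hh n = 2 ^ k * hh (n + k) := by
  unfold hh; rw [pow_add, one_div, inv_pow, inv_pow]; field_simp
theorem ee_add (n k : ℕ) : ee n = 3 ^ k * ee (n + k) := by
  unfold ee; rw [pow_add, one_div, inv_pow, inv_pow]; field_simp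
theorem hh_anti {n m : ℕ} (h : n ≤ m) : hh m ≤ hh n := by
  unfold hh; exact pow_le_pow_of_le_one (by norm_num) (by norm_num) h
theorem ee_anti {n m : ℕ} (h : n ≤ m) : ee m ≤ ee n := by
  unfold ee; exact pow_le_pow_of_le_one (by norm_num) (by norm_num) h

theorem xx_even {n : ℕ} (h : Even n) : xx n = hh n + ee n := by
  unfold xx hh ee; rw [h.neg_one_pow]; simp
theorem xx_odd {n : ℕ} (h : Odd n) : xx n = hh n - ee n := by
  unfold xx hh ee; rw [h.neg_one_pow]; simp; ring
theorem rr_even {n : ℕ} (h : Even n) : rr n = hh n - ee n / 4 := by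
  unfold rr hh ee; rw [h.neg_one_pow]; simp
theorem rr_odd {n : ℕ} (h : Odd n) : rr n = hh n + ee n / 4 := by
  unfold rr hh ee; rw [h.neg_one_pow]; simp; ring

theorem xx_le (n : ℕ) : xx n ≤ hh n + ee n := by
  have := ee_pos n
  rcases Nat.even_or_odd n with h | h
  · rw [xx_even h]
  · rw [xx_odd h]; linarith
theorem le_xx (n : ℕ) : hh n - ee n ≤ xx n := by
  have := ee_pos n
  rcases Nat.even_or_odd n with h | h
  · rw [xx_even h]; linarith
  · rw [xx_odd h]
theorem rr_le (n : ℕ) : rr n ≤ hh n + ee n / 4 := by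
  have := ee_pos n
  rcases Nat.even_or_odd n with h | h
  · rw [rr_even h]; linarith
  · rw [rr_odd h]
theorem ee_le_hh (n : ℕ) : ee n ≤ hh n := by
  unfold ee hh; exact pow_le_pow_left₀ (by norm_num) (by norm_num) n

/-- two odd multiples of different dyadic units are far apart -/
theorem odd_far {j m M : ℕ} (hj : j ≤ M) (hm : m ≤ M) (hjm : j ≠ m) {c1 c2 : ℤ}
    (h1 : Odd c1) (h2 : Odd c2) : hh M ≤ |c1 * hh m - c2 * hh j| := by
  obtain ⟨p, rfl⟩ := Nat.exists_eq_add_of_le hm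
  obtain ⟨q, hq⟩ := Nat.exists_eq_add_of_le hj
  have e1 : hh m = 2 ^ p * hh (m + p) := hh_add m p
  have e2 : hh j = 2 ^ q * hh (m + p) := by rw [hq]; exact hh_add j q
  have hne : c1 * 2 ^ p - c2 * 2 ^ q ≠ 0 := by
    intro h
    have hpq : p ≠ q := by omega
    rcases lt_or_gt_of_ne hpq with hlt | hlt
    · obtain ⟨s, rfl⟩ := Nat.exists_eq_add_of_lt hlt
      have : c1 = c2 * 2 ^ s * 2 := by
        have h3 : (c1 - c2 * 2 ^ s * 2) * 2 ^ p = 0 := by
          rw [← h]; ring
        rcases mul_eq_zero.1 h3 with h4 | h4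
        · linarith
        · exact absurd h4 (by positivity)
      exact (Int.not_even_iff_odd.2 h1) ⟨c2 * 2 ^ s, by linarith⟩
    · obtain ⟨s, rfl⟩ := Nat.exists_eq_add_of_lt hlt
      have : c2 = c1 * 2 ^ s * 2 := by
        have h3 : (c1 * 2 ^ s * 2 - c2) * 2 ^ q = 0 := by
          rw [← h]; ring
        rcases mul_eq_zero.1 h3 with h4 | h4
        · linarith
        · exact absurd h4 (by positivity)
      exact (Int.not_even_iff_odd.2 h2) ⟨c1 * 2 ^ s, by linarith⟩
  have h5 : (1 : ℝ) ≤ |((c1 * 2 ^ p - c2 * 2 ^ q : ℤ) : ℝ)| := by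
    rw [← Int.cast_abs]
    exact_mod_cast Int.one_le_abs hne
  have e3 : (c1 : ℝ) * hh m - c2 * hh j = ((c1 * 2 ^ p - c2 * 2 ^ q : ℤ) : ℝ) * hh (m + p) := by
    rw [e1, e2]; push_cast; ring
  rw [e3, abs_mul, abs_of_pos (hh_pos _)]
  have := hh_pos (m + p)
  nlinarith

section

variable (T : ℕ → Set ℝ) (hTa : ∀ n, ∀ y ∈ T n, 0 ≤ y ∧ y ≤ rr n)
  (hTb : ∀ n y, y ∈ T n → y ∈ T (n + 1) ∨ y - xx (n + 1) ∈ T (n + 1))

include hTa hTb

/-- Reduction: on an interval that avoids the cuts of levels `n+1..l`, a translate of `T n` is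
contained in one translate of `T l`. -/
theorem reduce (n : ℕ) (t a b : ℝ) (l : ℕ) (hl : n ≤ l)
    (H : ∀ j, n < j → j ≤ l → (Even j ∧ b - a < 5 / 4 * ee j) ∨
      ∀ c : ℤ, Odd c → ¬ (a - ee n / 2 ≤ t + c * hh j ∧ t + c * hh j ≤ b + ee n / 2)) :
    ∃ (t' : ℝ) (c : ℤ), |t' - t - c * hh l| ≤ (ee n - ee l) / 2 ∧
      ∀ y, a ≤ y → y ≤ b → y - t ∈ T n → y - t' ∈ T l := by
  induction l, hl using Nat.le_induction with
  | base => exact ⟨t, 0, by simp, fun y _ _ h => h⟩
  | succ l hl ih =>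
    obtain ⟨t', c, h1, h2⟩ := ih (fun j hj1 hj2 => H j hj1 (by omega))
    have e1 := hh_succ l
    have e2 := ee_succ l
    have p1 := ee_pos (l + 1)
    have x1 := xx_le (l + 1)
    have x2 := le_xx (l + 1)
    have r1 := rr_le (l + 1)
    rw [abs_le] at h1
    by_cases hA : t' + rr (l + 1) < a
    · refine ⟨t' + xx (l + 1), 2 * c + 1, ?_, ?_⟩
      · rw [abs_le]; push_cast; rw [e1] at h1
        constructor <;> linarith [h1.1, h1.2]
      · intro y hy1 hy2 hy3
        rcases hTb l _ (h2 y hy1 hy2 hy3) with h | h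
        · have := (hTa _ _ h).2
          linarith
        · have e : y - (t' + xx (l + 1)) = y - t' - xx (l + 1) := by ring
          rw [e]; exact h
    by_cases hB : b < t' + xx (l + 1)
    · refine ⟨t', 2 * c, ?_, ?_⟩
      · rw [abs_le]; push_cast; rw [e1] at h1
        constructor <;> linarith [h1.1, h1.2]
      · intro y hy1 hy2 hy3
        rcases hTb l _ (h2 y hy1 hy2 hy3) with h | h
        · exact h
        · have := (hTa _ _ h).1
          linarith
    exfalso
    push Not at hA hB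
    rcases H (l + 1) (by omega) le_rfl with ⟨hev, hlt⟩ | h
    · rw [xx_even hev] at hB
      rw [rr_even hev] at hA
      linarith
    · apply h (2 * c + 1) ⟨c, rfl⟩
      push_cast; rw [e1] at h1
      constructor <;> linarith [h1.1, h1.2]

/-- Near an odd multiple of `hh m` (with `m` even) a translate of `T n` has a gap of length
`ee m`. -/
theorem gap (n m : ℕ) (hnm : n < m) (hm : Even m) (t : ℝ) (c : ℤ) (hc : Odd c)
    (hsmall : 3 / 2 * ee n < hh m) :
    ∃ a : ℝ, t + c * hh m - ee n ≤ a ∧ a + ee m ≤ t + c * hh m + ee n ∧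
      ∀ y, a ≤ y → y ≤ a + ee m → y - t ∉ T n := by
  obtain ⟨l, rfl⟩ : ∃ l, m = l + 1 := ⟨m - 1, by omega⟩
  obtain ⟨t', c', h1, h2⟩ := reduce T hTa hTb n t (t + c * hh (l + 1) - ee n)
    (t + c * hh (l + 1) + ee n) l (by omega) (by
      intro j hj1 hj2
      right
      rintro c2 hc2 ⟨h3, h4⟩
      have := odd_far (j := j) (m := l + 1) (M := l + 1) (by omega) le_rfl (by omega) hc hc2
      have h5 : |(c : ℝ) * hh (l + 1) - c2 * hh j| ≤ 3 / 2 * ee n := by
        rw [abs_le]; constructor <;> linarith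
      linarith)
  have e1 := hh_succ l
  have e2 := ee_succ l
  have p1 := ee_pos (l + 1)
  have p2 := hh_pos (l + 1)
  have p3 : ee l ≤ ee n := ee_anti (by omega)
  rw [abs_le, e1] at h1
  obtain ⟨h1a, h1b⟩ := h1
  rcases lt_trichotomy c (2 * c' + 1) with hlt | heq | hlt
  · have hle : c ≤ 2 * c' - 1 := by
      obtain ⟨k, rfl⟩ := hc
      omega
    have hle' : (c : ℝ) ≤ 2 * c' - 1 := by exact_mod_cast hle
    refine ⟨t + c * hh (l + 1), by linarith, by linarith, ?_⟩
    intro y hy1 hy2 hy3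
    have := (hTa _ _ (h2 y (by linarith) (by linarith) hy3)).1
    nlinarith
  · have heq' : (c : ℝ) = 2 * c' + 1 := by exact_mod_cast heq
    have x1 := xx_even hm
    have r1 := rr_even hm
    refine ⟨t' + rr (l + 1) + ee (l + 1) / 8, ?_, ?_, ?_⟩
    · rw [heq']; linarith
    · rw [heq']; linarith
    · intro y hy1 hy2 hy3
      have h6 := h2 y (by rw [heq']; linarith) (by rw [heq']; linarith) hy3
      rcases hTb _ _ h6 with h | h
      · have := (hTa _ _ h).2
        linarith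
      · have := (hTa _ _ h).1
        linarith
  · have hle : 2 * c' + 3 ≤ c := by
      obtain ⟨k, rfl⟩ := hc
      omega
    have hle' : 2 * (c' : ℝ) + 3 ≤ c := by exact_mod_cast hle
    refine ⟨t + c * hh (l + 1), by linarith, by linarith, ?_⟩
    intro y hy1 hy2 hy3
    have := (hTa _ _ (h2 y (by linarith) (by linarith) hy3)).2
    have r1 := rr_le l
    nlinarith

omit hTa hTb in
theorem exists_small (K : ℝ) : ∃ N : ℕ, ∀ n, N ≤ n → K * ee n ≤ hh n := by
  obtain ⟨N, hN⟩ := pow_unbounded_of_one_lt K (show (1 : ℝ) < 3 / 2 by norm_num)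
  refine ⟨N, fun n hn => ?_⟩
  have h1 : (3 / 2 : ℝ) ^ N ≤ (3 / 2) ^ n := pow_le_pow_right₀ (by norm_num) hn
  have h2 : hh n = (3 / 2) ^ n * ee n := by
    unfold hh ee; rw [← mul_pow]; norm_num
  have := ee_pos n
  rw [h2]
  nlinarith

omit hTa hTb in
theorem window {α : Type*} [Nonempty α] (s : Finset α) (k : ℕ) (hs : s.card ≤ k) (P : α → ℕ → Prop)
    (hP : ∀ t i j, i ≤ j → P t i → P t j) :
    ∃ j, j ≤ k ∧ ∀ t ∈ s, P t j ∨ ¬ P t (j + 1) := by
  by_contra hcon
  push Not at hcon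
  choose! f hf using hcon
  have hinj : Set.InjOn f (Finset.range (k + 1) : Set ℕ) := by
    intro i hi j hj hij
    have hi' : i ≤ k := by simpa [Nat.lt_succ_iff] using hi
    have hj' : j ≤ k := by simpa [Nat.lt_succ_iff] using hj
    obtain ⟨-, a1, a2⟩ := hf i hi'
    obtain ⟨-, b1, b2⟩ := hf j hj'
    rcases lt_trichotomy i j with h | h | h
    · exact absurd (hP _ _ _ h (hij ▸ a2)) b1
    · exact h
    · exact absurd (hP _ _ _ h (hij ▸ b2)) a1
  have := Finset.card_le_card_of_injOn f (t := s) (fun i hi => by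
    have hi' : i ≤ k := by simpa [Nat.lt_succ_iff] using hi
    exact (hf i hi').1) hinj
  simp at this
  omega

/-- at most `k` translates of `T n` do not cover a long enough interval -/
theorem claim (k : ℕ) : ∃ (N : ℕ) (K : ℝ), 0 ≤ K ∧ ∀ n, N ≤ n → ∀ s : Finset ℝ, s.card ≤ k →
    ∀ a b : ℝ, K * ee n ≤ b - a → ∃ y, a ≤ y ∧ y ≤ b ∧ ∀ t ∈ s, y - t ∉ T n := by
  classical
  induction k with
  | zero =>
    refine ⟨0, 0, le_rfl, fun n _ s hs a b hab => ⟨a, le_rfl, by linarith, ?_⟩⟩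
    have : s = ∅ := Finset.card_eq_zero.1 (by omega)
    simp [this]
  | succ k ih =>
    obtain ⟨N', K', hK', ih⟩ := ih
    obtain ⟨C0, hC0⟩ := pow_unbounded_of_one_lt K' (show (1 : ℝ) < 3 by norm_num)
    set C := 2 * C0 + 1 with hC
    have hCK : K' ≤ 3 ^ C := hC0.le.trans (pow_le_pow_right₀ (by norm_num) (by omega))
    set L := (k + 1) * (C + 1) with hL
    set K : ℝ := 4 * 2 ^ (L + 3) with hK
    have hK4 : 4 ≤ K := by
      have : (1 : ℝ) ≤ 2 ^ (L + 3) := one_le_pow₀ (by norm_num)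
      linarith
    obtain ⟨N, hN⟩ := exists_small K
    refine ⟨max N N', K, by linarith, fun n hn s hs a b hab => ?_⟩
    have hn1 : N ≤ n := le_trans (le_max_left _ _) hn
    have hn2 : N' ≤ n := le_trans (le_max_right _ _) hn
    have pe := ee_pos n
    have ph := hh_pos n
    rcases s.eq_empty_or_nonempty with rfl | ⟨t1, ht1⟩
    · exact ⟨a, le_rfl, by nlinarith, by simp⟩
    -- the working width
    set w := min (b - a) (hh n) with hw
    have hw1 : w ≤ b - a := min_le_left _ _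
    have hw2 : w ≤ hh n := min_le_right _ _
    have hw3 : K * ee n ≤ w := le_min hab (hN n hn1)
    have hw4 : 0 < w := by nlinarith
    have hh1 : hh n ≤ 1 := by have := hh_anti (Nat.zero_le n); simpa [hh] using this
    obtain ⟨p, hp1, hp2⟩ := exists_nat_pow_near_of_lt_one (x := w / 2) (y := (1 / 2 : ℝ))
      (by linarith) (by linarith) (by norm_num) (by norm_num)
    change hh (p + 1) < w / 2 at hp1
    change w / 2 ≤ hh p at hp2
    have hnp : n ≤ p + 1 := by
      by_contra hcon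
      have := hh_anti (show p + 1 ≤ n by omega)
      linarith
    obtain ⟨M0, hM0, hM1, hM2⟩ : ∃ M0, Odd M0 ∧ p + 1 ≤ M0 ∧ M0 ≤ p + 2 := by
      rcases Nat.even_or_odd p with h | h
      · exact ⟨p + 1, h.add_one, le_rfl, by omega⟩
      · exact ⟨p + 2, by obtain ⟨q, rfl⟩ := h; exact ⟨q + 1, by ring⟩, by omega, le_rfl⟩
    have hfine : 4 * ee n ≤ hh (M0 + L) := by
      have h1 : hh (p + (L + 2)) ≤ hh (M0 + L) := hh_anti (by omega)
      have h2 := hh_add p (L + 2)
      have h3 : (2 : ℝ) ^ (L + 3) = 2 * 2 ^ (L + 2) := by ring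
      have h4 : (0 : ℝ) < 2 ^ (L + 2) := by positivity
      have h5 : 2 ^ (L + 2) * (4 * ee n) ≤ 2 ^ (L + 2) * hh (p + (L + 2)) := by
        rw [← h2]; rw [hK, h3] at hw3; linarith
      exact le_trans (le_of_mul_le_mul_left h5 h4) h1
    -- pigeonhole on the windows
    obtain ⟨j, hj, hjP⟩ := window (s.erase t1) k (by rw [Finset.card_erase_of_mem ht1]; omega)
      (fun t i => ∃ c : ℤ, |t1 - t - c * hh (M0 + i * (C + 1))| ≤ 3 / 2 * ee n) (by
        rintro t i i' hii ⟨c, hc⟩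
        obtain ⟨d, rfl⟩ := Nat.exists_eq_add_of_le hii
        refine ⟨c * 2 ^ (d * (C + 1)), ?_⟩
        have e : M0 + (i + d) * (C + 1) = M0 + i * (C + 1) + d * (C + 1) := by ring
        rw [hh_add _ (d * (C + 1)), ← e] at hc
        push_cast
        rw [mul_assoc]; exact hc)
    set M := M0 + j * (C + 1) with hM
    have hMe : M0 + (j + 1) * (C + 1) = M + 1 + C := by rw [hM]; ring
    rw [hMe] at hjP
    have hML : M + 1 + C ≤ M0 + L := by
      rw [← hMe, hL]
      exact Nat.add_le_add_left (Nat.mul_le_mul_right _ (by omega)) _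
    have hMeven : Even (M + 1) := by
      obtain ⟨q, hq⟩ := hM0
      exact ⟨q + 1 + j * (C0 + 1), by rw [hM, hC, hq]; ring⟩
    have hMn : n ≤ M := by omega
    have f1 : hh (M0 + L) ≤ hh (M + 1 + C) := hh_anti hML
    have f2 : hh (M + 1 + C) ≤ hh (M + 1) := hh_anti (by omega)
    have f3 : hh M ≤ hh (p + 1) := hh_anti (by omega)
    have f4 := hh_succ M
    have f5 := hh_pos (M + 1)
    -- an odd multiple of hh (M+1) well inside the interval
    obtain ⟨c, hc, hc1, hc2⟩ : ∃ c : ℤ, Odd c ∧ a + ee n ≤ t1 + c * hh (M + 1) ∧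
        t1 + c * hh (M + 1) ≤ b - ee n := by
      have f6 := hh_pos M
      set z := (a + ee n - t1 - hh (M + 1)) / hh M with hz
      have hz1 : z ≤ ⌈z⌉ := Int.le_ceil z
      have hz2 : (⌈z⌉ : ℝ) < z + 1 := Int.ceil_lt_add_one z
      have hz3 : z * hh M = a + ee n - t1 - hh (M + 1) := by rw [hz]; field_simp
      have hz4 : z * hh M ≤ ⌈z⌉ * hh M := mul_le_mul_of_nonneg_right hz1 f6.le
      have hz5 : (⌈z⌉ : ℝ) * hh M ≤ (z + 1) * hh M := mul_le_mul_of_nonneg_right hz2.le f6.le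
      have hz6 : (2 * (⌈z⌉ : ℝ) + 1) * hh (M + 1) = ⌈z⌉ * hh M + hh (M + 1) := by
        rw [f4]; ring
      have hz7 : 4 * ee n ≤ K * ee n := mul_le_mul_of_nonneg_right hK4 pe.le
      refine ⟨2 * ⌈z⌉ + 1, ⟨_, rfl⟩, ?_, ?_⟩
      · push_cast; rw [hz6]; linarith
      · push_cast; rw [hz6]; linarith
    obtain ⟨a', ha1, ha2, ha3⟩ := gap T hTa hTb n (M + 1) (by omega) hMeven t1 c hc (by linarith)
    have hred : ∀ t ∈ s.erase t1, ∃ t' : ℝ, ∀ y, a' ≤ y → y ≤ a' + ee (M + 1) →
        y - t ∈ T n → y - t' ∈ T (M + 1 + C) := by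
      intro t ht
      obtain ⟨t', -, -, h⟩ := reduce T hTa hTb n t a' (a' + ee (M + 1)) (M + 1 + C) (by omega) (by
        intro i hi1 hi2
        by_cases him : i = M + 1
        · left
          subst him
          have := ee_pos (M + 1)
          exact ⟨hMeven, by linarith⟩
        right
        rintro c2 hc2 ⟨g1, g2⟩
        have pe' := ee_pos (M + 1)
        have g3 : |t1 - t + c * hh (M + 1) - c2 * hh i| ≤ 3 / 2 * ee n := by
          rw [abs_le]; constructor <;> linarith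
        rcases hjP t ht with ⟨c3, hc3⟩ | hP
        · have := odd_far (j := i) (m := M + 1) (M := M + 1 + C) hi2 (by omega) him
            (c1 := 2 * c3 + c) (c2 := c2) (by
              obtain ⟨q, rfl⟩ := hc; exact ⟨c3 + q, by ring⟩) hc2
          rw [abs_le] at g3 hc3
          have g4 : |((2 * c3 + c : ℤ) : ℝ) * hh (M + 1) - c2 * hh i| ≤ 3 * ee n := by
            rw [abs_le]; push_cast; rw [f4] at hc3
            constructor <;> linarith [g3.1, g3.2, hc3.1, hc3.2]
          linarith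
        · apply hP
          obtain ⟨q, hq⟩ := Nat.exists_eq_add_of_le hi2
          refine ⟨c2 * 2 ^ q - c * 2 ^ C, ?_⟩
          have u1 : hh i = 2 ^ q * hh (M + 1 + C) := by rw [hq]; exact hh_add i q
          have u2 : hh (M + 1) = 2 ^ C * hh (M + 1 + C) := hh_add _ _
          rw [u1, u2] at g3
          push_cast
          convert g3 using 2
          ring)
      exact ⟨t', h⟩
    choose! φ hφ using hred
    obtain ⟨y, hy1, hy2, hy3⟩ := ih (M + 1 + C) (by omega) ((s.erase t1).image φ)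
      (le_trans Finset.card_image_le (by rw [Finset.card_erase_of_mem ht1]; omega))
      a' (a' + ee (M + 1)) (by
        have u := ee_add (M + 1) C
        have := ee_pos (M + 1 + C)
        nlinarith)
    refine ⟨y, by linarith, by linarith, ?_⟩
    intro t ht hmem
    by_cases htt : t = t1
    · subst htt
      exact ha3 y hy1 hy2 hmem
    · have ht' : t ∈ s.erase t1 := Finset.mem_erase.2 ⟨htt, ht⟩
      exact hy3 _ (Finset.mem_image_of_mem φ ht') (hφ t ht' y hy1 hy2 hmem)

omit hTa in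
theorem cover (n : ℕ) : ∃ s : Finset ℝ, s.card ≤ 2 ^ n ∧ ∀ y ∈ T 0, ∃ t ∈ s, y - t ∈ T n := by
  classical
  induction n with
  | zero => exact ⟨{0}, by simp, fun y hy => ⟨0, by simp, by simpa using hy⟩⟩
  | succ n ih =>
    obtain ⟨s, hs, h⟩ := ih
    refine ⟨s ∪ s.image (fun t => t + xx (n + 1)), ?_, ?_⟩
    · have h1 := Finset.card_union_le s (s.image (fun t => t + xx (n + 1)))
      have h2 : (s.image (fun t => t + xx (n + 1))).card ≤ s.card := Finset.card_image_le
      rw [pow_succ]; omega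
    · intro y hy
      obtain ⟨t, ht, h'⟩ := h y hy
      rcases hTb _ _ h' with h1 | h1
      · exact ⟨t, Finset.mem_union_left _ ht, h1⟩
      · refine ⟨t + xx (n + 1), Finset.mem_union_right _ (Finset.mem_image_of_mem _ ht), ?_⟩
        have e : y - (t + xx (n + 1)) = y - t - xx (n + 1) := by ring
        rw [e]; exact h1

theorem not_Icc_subset (a b : ℝ) (hab : a < b) : ¬ Icc a b ⊆ T 0 := by
  classical
  intro hsub
  obtain ⟨k, hk⟩ := exists_nat_ge (8 / (b - a))
  obtain ⟨N, K, hK, H⟩ := claim T hTa hTb k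
  obtain ⟨N1, hN1⟩ := exists_small K
  obtain ⟨N2, hN2⟩ := exists_pow_lt_of_lt_one (show 0 < (b - a) / 8 by linarith)
    (show (1 / 2 : ℝ) < 1 by norm_num)
  set n := max N (max N1 N2) with hn
  have n1 : N ≤ n := le_max_left _ _
  have n2 : N1 ≤ n := le_trans (le_max_left _ _) (le_max_right _ _)
  have n3 : N2 ≤ n := le_trans (le_max_right _ _) (le_max_right _ _)
  have ph := hh_pos n
  have hsm : hh n < (b - a) / 8 := lt_of_le_of_lt (hh_anti n3) hN2
  obtain ⟨s, hs, hcov⟩ := cover T hTb n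
  set Q := ⌊(b - a) / (4 * hh n)⌋₊ with hQ
  have hQ1 : (Q : ℝ) ≤ (b - a) / (4 * hh n) := Nat.floor_le (by
    apply div_nonneg <;> linarith)
  have hQ2 : (b - a) / (4 * hh n) < Q + 1 := Nat.lt_floor_add_one _
  rw [le_div_iff₀ (by linarith)] at hQ1
  rw [div_lt_iff₀ (by linarith)] at hQ2
  have hQ3 : (b - a) / 8 ≤ Q * hh n := by nlinarith
  have hQ4 : (0 : ℝ) < Q := by
    by_contra hcon
    push Not at hcon
    nlinarith
  have hpow : (2 : ℝ) ^ n * hh n = 1 := by
    have := hh_add 0 n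
    simp only [zero_add] at this
    rw [← this]; simp [hh]
  have hcard : s.card ≤ (Finset.Ico (0 : ℤ) Q).card * k := by
    have h1 : (2 : ℝ) ^ n ≤ Q * k := by
      rw [div_le_iff₀ (by linarith)] at hk
      have h2 : (2 : ℝ) ^ n * hh n ≤ (Q * k) * hh n := by
        rw [hpow]
        have : (0 : ℝ) ≤ k := Nat.cast_nonneg k
        nlinarith
      exact le_of_mul_le_mul_right h2 ph
    have h3 : 2 ^ n ≤ Q * k := by exact_mod_cast h1
    simpa using le_trans hs h3
  obtain ⟨q, hq, hfib⟩ := Finset.exists_card_fiber_le_of_card_le_mul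
    (f := fun t : ℝ => ⌊(t - a) / (4 * hh n)⌋) (t := Finset.Ico (0 : ℤ) Q)
    ⟨0, by simpa using hQ4⟩ hcard
  rw [Finset.mem_Ico] at hq
  have q1 : (0 : ℝ) ≤ q := by exact_mod_cast hq.1
  have q2 : (q : ℝ) + 1 ≤ Q := by exact_mod_cast hq.2
  obtain ⟨y, hy1, hy2, hy3⟩ := H n n1 _ hfib (a + (4 * q + 2) * hh n) (a + (4 * q + 3) * hh n)
    (by have := hN1 n n2; linarith)
  have hy : y ∈ T 0 := hsub ⟨by nlinarith, by nlinarith⟩
  obtain ⟨t, ht, hmem⟩ := hcov y hy
  refine hy3 t ?_ hmem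
  rw [Finset.mem_filter]
  refine ⟨ht, ?_⟩
  obtain ⟨b1, b2⟩ := hTa _ _ hmem
  have b3 := rr_le n
  have b4 := ee_le_hh n
  rw [Int.floor_eq_iff, le_div_iff₀ (by linarith), div_lt_iff₀ (by linarith)]
  constructor <;> nlinarith

theorem interior_empty : interior (T 0) = ∅ := by
  by_contra hcon
  obtain ⟨y, hy⟩ := Set.nonempty_iff_ne_empty.2 hcon
  rw [mem_interior_iff_mem_nhds, Metric.mem_nhds_iff] at hy
  obtain ⟨ε, hε, h⟩ := hy
  refine not_Icc_subset T hTa hTb y (y + ε / 2) (by linarith) (fun z hz => h ?_)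
  rw [Metric.mem_ball, Real.dist_eq, abs_lt]
  constructor <;> linarith [hz.1, hz.2]

end

end Pool.Agent.P.MP_c19edd_an
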