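import Pool.Agent.P.MP_c19edd_an.Core

/-! General form of the covering argument, for sequences whose ratio tends to one half. -/

open Set

namespace Pool.Agent.P.MP_c19edd_an.Gen

theorem odd_far' {h : ℝ} (hh0 : 0 < h) {j m M : ℕ} (hj : j ≤ M) (hm : m ≤ M) (hjm : j ≠ m)
    {c1 c2 : ℤ} (h1 : Odd c1) (h2 : Odd c2) :
    h * hh M ≤ |c1 * (h * hh m) - c2 * (h * hh j)| := by
  have e : c1 * (h * hh m) - c2 * (h * hh j) = h * (c1 * hh m - c2 * hh j) := by ring
  rw [e, abs_mul, abs_of_pos hh0]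
  exact mul_le_mul_of_nonneg_left (odd_far hj hm hjm h1 h2) hh0.le

variable {x r : ℕ → ℝ} {T : ℕ → Set ℝ} (hTa : ∀ n, ∀ y ∈ T n, 0 ≤ y ∧ y ≤ r n)
  (hTb : ∀ n y, y ∈ T n → y ∈ T (n + 1) ∨ y - x (n + 1) ∈ T (n + 1))

include hTa hTb

theorem left {l : ℕ} {t y : ℝ} (h : y - t ∈ T l) (hy : y < t + x (l + 1)) : y - t ∈ T (l + 1) := by
  rcases hTb l _ h with h | h
  · exact h
  · have := (hTa _ _ h).1
    linarith

theorem right {l : ℕ} {t y : ℝ} (h : y - t ∈ T l) (hy : t + r (l + 1) < y) :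
    y - (t + x (l + 1)) ∈ T (l + 1) := by
  rcases hTb l _ h with h | h
  · have := (hTa _ _ h).2
    linarith
  · rwa [← sub_sub]

/-- Fine reduction: on an interval that avoids the cuts, one translate stays one translate. -/
theorem reduce {h ε : ℝ} (hε : 0 ≤ ε) (p L : ℕ)
    (hx : ∀ i ≤ L, |x (p + i) - h * hh i| ≤ ε ∧ |r (p + i) - h * hh i| ≤ ε)
    (t a b : ℝ) (l : ℕ) (hl : l ≤ L)
    (H : ∀ j, 0 < j → j ≤ l → b - a < x (p + j) - r (p + j) ∨ ∀ c : ℤ, Odd c →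
      ¬ (a - L * ε ≤ t + c * (h * hh j) ∧ t + c * (h * hh j) ≤ b + L * ε)) :
    ∃ (t' : ℝ) (c : ℤ), |t' - t - c * (h * hh l)| ≤ l * ε ∧
      ∀ y, a ≤ y → y ≤ b → y - t ∈ T p → y - t' ∈ T (p + l) := by
  induction l with
  | zero => exact ⟨t, 0, by simp, fun y _ _ h => h⟩
  | succ l ih =>
    obtain ⟨t', c, h1, h2⟩ := ih (by omega) (fun j hj1 hj2 => H j hj1 (by omega))
    have e1 : h * hh l = 2 * (h * hh (l + 1)) := by rw [hh_succ l]; ring
    obtain ⟨x1, r1⟩ := hx (l + 1) hl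
    rw [abs_le] at h1 x1 r1
    rw [e1] at h1
    have hL : ((l : ℝ) + 1) * ε ≤ L * ε :=
      mul_le_mul_of_nonneg_right (by exact_mod_cast hl) hε
    by_cases hA : t' + r (p + (l + 1)) < a
    · refine ⟨t' + x (p + (l + 1)), 2 * c + 1, ?_, fun y hy1 hy2 hy3 =>
        right hTa hTb (h2 y hy1 hy2 hy3) (lt_of_lt_of_le hA hy1)⟩
      rw [abs_le]
      push_cast
      constructor <;> linarith [h1.1, h1.2, x1.1, x1.2]
    by_cases hB : b < t' + x (p + (l + 1))
    · refine ⟨t', 2 * c, ?_, fun y hy1 hy2 hy3 =>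
        left hTa hTb (h2 y hy1 hy2 hy3) (lt_of_le_of_lt hy2 hB)⟩
      rw [abs_le]
      push_cast
      constructor <;> linarith [h1.1, h1.2]
    exfalso
    rw [not_lt] at hA hB
    rcases H (l + 1) (by omega) le_rfl with hlt | h3
    · linarith
    · refine h3 (2 * c + 1) ⟨c, rfl⟩ ?_
      push_cast
      constructor <;> linarith [h1.1, h1.2, x1.1, x1.2, r1.1, r1.2]

/-- Near an odd multiple of the unit of a level with a gap, a translate has a gap. -/
theorem gap {h ε : ℝ} (hh0 : 0 < h) (hε : 0 ≤ ε) (p L : ℕ)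
    (hx : ∀ i ≤ L, |x (p + i) - h * hh i| ≤ ε ∧ |r (p + i) - h * hh i| ≤ ε)
    (m : ℕ) (hm0 : 0 < m) (hm : m ≤ L) (hg : 0 < x (p + m) - r (p + m)) (t : ℝ) (c : ℤ)
    (hc : Odd c) (hs : 3 * (L * ε) < h * hh m) :
    ∃ a : ℝ, t + c * (h * hh m) - L * ε ≤ a ∧
      a + (x (p + m) - r (p + m)) / 2 ≤ t + c * (h * hh m) + L * ε ∧
      ∀ y, a ≤ y → y ≤ a + (x (p + m) - r (p + m)) / 2 → y - t ∉ T p := by
  obtain ⟨l, rfl⟩ : ∃ l, m = l + 1 := ⟨m - 1, by omega⟩
  have hL : ((l : ℝ) + 1) * ε ≤ L * ε := mul_le_mul_of_nonneg_right (by exact_mod_cast hm) hε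
  have hl0 : 0 ≤ (l : ℝ) * ε := by positivity
  obtain ⟨t', c', h1, h2⟩ := reduce hTa hTb hε p L hx t (t + c * (h * hh (l + 1)) - L * ε)
    (t + c * (h * hh (l + 1)) + L * ε) l (by omega) (by
      intro j hj1 hj2
      right
      rintro c2 hc2 ⟨h3, h4⟩
      have := odd_far' hh0 (j := j) (m := l + 1) (M := l + 1) (by omega) le_rfl (by omega) hc hc2
      have h5 : |(c : ℝ) * (h * hh (l + 1)) - c2 * (h * hh j)| ≤ 2 * (L * ε) := by
        rw [abs_le]; constructor <;> linarith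
      linarith)
  have e1 : h * hh l = 2 * (h * hh (l + 1)) := by rw [hh_succ l]; ring
  obtain ⟨x1, r1⟩ := hx (l + 1) hm
  obtain ⟨-, r0⟩ := hx l (by omega)
  rw [abs_le] at h1 x1 r1 r0
  rw [e1] at h1 r0
  obtain ⟨h1a, h1b⟩ := h1
  have p2 : 0 < h * hh (l + 1) := mul_pos hh0 (hh_pos _)
  generalize h * hh (l + 1) = u at *
  rcases lt_trichotomy c (2 * c' + 1) with hlt | heq | hlt
  · have hle : c ≤ 2 * c' - 1 := by
      obtain ⟨k, rfl⟩ := hc
      omega
    have hle' : (c : ℝ) ≤ 2 * c' - 1 := by exact_mod_cast hle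
    have := mul_le_mul_of_nonneg_right hle' p2.le
    refine ⟨t + c * u, by linarith, by linarith [x1.2, r1.1], fun y hy1 hy2 hy3 => ?_⟩
    have := (hTa _ _ (h2 y (by linarith) (by linarith [x1.2, r1.1]) hy3)).1
    linarith [x1.2, r1.1]
  · have heq' : (c : ℝ) * u = c' * (2 * u) + u := by rw [heq]; push_cast; ring
    refine ⟨t' + r (p + (l + 1)) + (x (p + (l + 1)) - r (p + (l + 1))) / 4,
      by linarith [r1.1], by linarith [x1.2], fun y hy1 hy2 hy3 => ?_⟩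
    have h6 := h2 y (by linarith [r1.1]) (by linarith [x1.2]) hy3
    have := (hTa _ _ (left hTa hTb h6 (y := y) (show y < t' + x (p + (l + 1)) by linarith))).2
    have e : r (p + l + 1) = r (p + (l + 1)) := rfl
    linarith
  · have hle : 2 * c' + 3 ≤ c := by
      obtain ⟨k, rfl⟩ := hc
      omega
    have hle' : 2 * (c' : ℝ) + 3 ≤ c := by exact_mod_cast hle
    have := mul_le_mul_of_nonneg_right hle' p2.le
    refine ⟨t + c * u, by linarith, by linarith [x1.2, r1.1], fun y hy1 hy2 hy3 => ?_⟩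
    have := (hTa _ _ (h2 y (by linarith) (by linarith [x1.2, r1.1]) hy3)).2
    linarith [r0.2]

/-- Coarse reduction: on a part of the interval one translate stays one translate. -/
theorem coarse (hr : ∀ n, r n = x (n + 1) + r (n + 1)) {O : ℝ} (hO : 0 ≤ O) (n : ℕ) (t a b : ℝ)
    (hw : O < b - a) (l : ℕ) (hl : n ≤ l)
    (H : ∀ j, n < j → j ≤ l → r j - x j ≤ O ∧ b - a + O < x j) :
    ∃ a' b' t', a ≤ a' ∧ b' ≤ b ∧ (b - a - O) / 3 ≤ b' - a' ∧
      ((a' = a ∧ b' = b) ∨ t' + r l - (b - a + O) ≤ a' ∨ b' ≤ t' + (b - a + O)) ∧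
      ∀ y, a' ≤ y → y ≤ b' → y - t ∈ T n → y - t' ∈ T l := by
  induction l, hl using Nat.le_induction with
  | base => exact ⟨a, b, t, le_rfl, le_rfl, by linarith, Or.inl ⟨rfl, rfl⟩, fun y _ _ h => h⟩
  | succ l hl ih =>
    obtain ⟨a', b', t', h1, h2, h3, h4, h5⟩ := ih (fun j hj1 hj2 => H j hj1 (by omega))
    obtain ⟨o1, o2⟩ := H (l + 1) (by omega) le_rfl
    have e := hr l
    rcases h4 with ⟨rfl, rfl⟩ | h4 | h4
    · by_cases hA : t' + r (l + 1) < a'
      · exact ⟨a', b', _, h1, h2, h3, Or.inl ⟨rfl, rfl⟩, fun y y1 y2 y3 =>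
          right hTa hTb (h5 y y1 y2 y3) (by linarith)⟩
      by_cases hB : b' < t' + x (l + 1)
      · exact ⟨a', b', _, h1, h2, h3, Or.inl ⟨rfl, rfl⟩, fun y y1 y2 y3 =>
          left hTa hTb (h5 y y1 y2 y3) (by linarith)⟩
      rw [not_lt] at hA hB
      rcases le_total (b' - t' - r (l + 1)) (t' + x (l + 1) - a') with hC | hC
      · exact ⟨a', a' + (b' - a' - O) / 3, t', le_rfl, by linarith, by linarith,
          Or.inr (Or.inl (by linarith)), fun y y1 y2 y3 =>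
            left hTa hTb (h5 y y1 (by linarith) y3) (by linarith)⟩
      · exact ⟨b' - (b' - a' - O) / 3, b', t' + x (l + 1), by linarith, le_rfl, by linarith,
          Or.inr (Or.inr (by linarith)), fun y y1 y2 y3 =>
            right hTa hTb (h5 y (by linarith) y2 y3) (by linarith)⟩
    · exact ⟨a', b', t' + x (l + 1), h1, h2, h3, Or.inr (Or.inl (by linarith)),
        fun y y1 y2 y3 => right hTa hTb (h5 y y1 y2 y3) (by linarith)⟩
    · exact ⟨a', b', t', h1, h2, h3, Or.inr (Or.inr h4),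
        fun y y1 y2 y3 => left hTa hTb (h5 y y1 y2 y3) (by linarith)⟩

theorem coarse_all (hr : ∀ n, r n = x (n + 1) + r (n + 1)) {O : ℝ} (hO : 0 < O) (n l : ℕ)
    (hl : n ≤ l) (a b : ℝ) (H : ∀ j, n < j → j ≤ l → r j - x j ≤ O ∧ b - a + O < x j)
    (s : Finset ℝ) (hs : 4 ^ (s.card + 1) * O ≤ b - a) :
    ∃ a' b', a ≤ a' ∧ b' ≤ b ∧ b - a ≤ 4 ^ s.card * (b' - a') ∧
      ∀ t ∈ s, ∃ t', ∀ y, a' ≤ y → y ≤ b' → y - t ∈ T n → y - t' ∈ T l := by
  classical
  induction s using Finset.induction_on with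
  | empty => exact ⟨a, b, le_rfl, le_rfl, by simp, by simp⟩
  | insert t s ht ih =>
    rw [Finset.card_insert_of_notMem ht] at hs ⊢
    have p4 : (0 : ℝ) < 4 ^ s.card := by positivity
    have pO := mul_pos p4 hO
    rw [pow_succ, pow_succ] at hs
    obtain ⟨a', b', h1, h2, h3, h4⟩ := ih (by rw [pow_succ]; nlinarith)
    have h5 : 16 * O ≤ b' - a' := le_of_mul_le_mul_left (by nlinarith) p4
    obtain ⟨a2, b2, t', g1, g2, g3, -, g5⟩ := coarse hTa hTb hr hO.le n t a' b' (by linarith) l hl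
      fun j j1 j2 => ⟨(H j j1 j2).1, by linarith [(H j j1 j2).2]⟩
    refine ⟨a2, b2, by linarith, by linarith, ?_, fun t2 ht2 => ?_⟩
    · have : b' - a' ≤ 4 * (b2 - a2) := by linarith
      rw [pow_succ]
      nlinarith
    · rcases Finset.mem_insert.1 ht2 with rfl | ht2
      · exact ⟨t', g5⟩
      · obtain ⟨t3, h6⟩ := h4 t2 ht2
        exact ⟨t3, fun y y1 y2 => h6 y (by linarith) (by linarith)⟩

omit hTa in
theorem cover (n : ℕ) : ∃ s : Finset ℝ, s.card ≤ 2 ^ n ∧ ∀ y ∈ T 0, ∃ t ∈ s, y - t ∈ T n := by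
  classical
  induction n with
  | zero => exact ⟨{0}, by simp, fun y hy => ⟨0, by simp, by simpa using hy⟩⟩
  | succ n ih =>
    obtain ⟨s, hs, h⟩ := ih
    refine ⟨s ∪ s.image (fun t => t + x (n + 1)), ?_, fun y hy => ?_⟩
    · have h1 := Finset.card_union_le s (s.image (fun t => t + x (n + 1)))
      have h2 : (s.image (fun t => t + x (n + 1))).card ≤ s.card := Finset.card_image_le
      rw [pow_succ]; omega
    · obtain ⟨t, ht, h'⟩ := h y hy
      rcases hTb _ _ h' with h1 | h1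
      · exact ⟨t, Finset.mem_union_left _ ht, h1⟩
      · exact ⟨t + x (n + 1), Finset.mem_union_right _ (Finset.mem_image_of_mem _ ht),
          by rwa [← sub_sub]⟩

end Pool.Agent.P.MP_c19edd_an.Gen
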