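import Pool.Agent.P.MP_c19edd_an.Gen

/-! Few translates of a tail set cover no interval of the right length. -/

open Set Filter Topology

namespace Pool.Agent.P.MP_c19edd_an.Gen

/-- At most `k` translates of `T p` cover no interval of length comparable with `x p`. -/
def Long (x : ℕ → ℝ) (T : ℕ → Set ℝ) (k : ℕ) : Prop :=
  ∀ c : ℝ, 0 < c → ∃ N, ∀ p, N ≤ p → ∀ s : Finset ℝ, s.card ≤ k → ∀ a b : ℝ, c * x p ≤ b - a →
    ∃ y, a ≤ y ∧ y ≤ b ∧ ∀ t ∈ s, y - t ∉ T p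

/-- At most `k` translates of `T n` cover no interval much longer than all later overlaps. -/
def Short (x r : ℕ → ℝ) (T : ℕ → Set ℝ) (k : ℕ) : Prop :=
  ∃ N, ∀ n, N ≤ n → ∀ s : Finset ℝ, s.card ≤ k → ∀ a b : ℝ, a < b →
    (∀ j, n < j → 4 ^ (k + 1) * (r j - x j) ≤ b - a) → ∃ y, a ≤ y ∧ y ≤ b ∧ ∀ t ∈ s, y - t ∉ T n

variable {x r : ℕ → ℝ} {T : ℕ → Set ℝ} (hTa : ∀ n, ∀ y ∈ T n, 0 ≤ y ∧ y ≤ r n)
  (hTb : ∀ n y, y ∈ T n → y ∈ T (n + 1) ∨ y - x (n + 1) ∈ T (n + 1))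
  (hpos : ∀ n, 1 ≤ n → 0 < x n)
  (hloc : ∀ (L : ℕ) (η : ℝ), 0 < η → ∃ N, ∀ p, N ≤ p → ∀ i ≤ L,
    |x (p + i) - x p * hh i| ≤ η * x p ∧ |r (p + i) - x p * hh i| ≤ η * x p)

include hTa hTb hloc

theorem short_of_long (hr : ∀ n, r n = x (n + 1) + r (n + 1)) (hx0 : Tendsto x atTop (𝓝 0))
    {k : ℕ} (h : Long x T k) : Short x r T k := by
  classical
  have p4 : (0 : ℝ) < 4 ^ k := by positivity
  obtain ⟨N1, h1⟩ := h (1 / (6 * 4 ^ k)) (by positivity)
  obtain ⟨N2, h2⟩ := hloc 1 (1 / 6) (by norm_num)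
  refine ⟨max N1 N2, fun n hn s hs a b hab hO => ?_⟩
  have hw : 0 < b - a := sub_pos.2 hab
  have ex : ∃ d, x (n + d + 1) ≤ 2 * (b - a) := by
    obtain ⟨N, hN⟩ := eventually_atTop.1 (hx0.eventually (gt_mem_nhds (by linarith :
      0 < 2 * (b - a))))
    exact ⟨N, (hN _ (by omega)).le⟩
  have p5 : (1 : ℝ) ≤ 4 ^ (k + 1) := one_le_pow₀ (by norm_num)
  have p6 : (4 : ℝ) ^ s.card ≤ 4 ^ k := pow_le_pow_right₀ (by norm_num) hs
  obtain ⟨a', b', g1, g2, g3, g4⟩ := coarse_all hTa hTb hr (O := (b - a) / 4 ^ (k + 1))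
    (by positivity) n (n + Nat.find ex) (by omega) a b (fun j j1 j2 => by
      refine ⟨by rw [le_div_iff₀ (by positivity), mul_comm]; exact hO j j1, ?_⟩
      obtain ⟨d, rfl⟩ : ∃ d, j = n + d + 1 := ⟨j - n - 1, by omega⟩
      have := not_le.1 (Nat.find_min ex (show d < Nat.find ex by omega))
      have := div_le_self hw.le p5
      linarith) s (by
      rw [← mul_div_assoc, div_le_iff₀ (by positivity), mul_comm]
      exact mul_le_mul_of_nonneg_left (pow_le_pow_right₀ (by norm_num) (by omega)) hw.le)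
  choose! φ hφ using g4
  have g5 : 0 < b' - a' := (mul_pos_iff_of_pos_left (by positivity)).1 (lt_of_lt_of_le hw g3)
  obtain ⟨y, y1, y2, y3⟩ := h1 (n + Nat.find ex) (by omega) (s.image φ)
    (Finset.card_image_le.trans hs) a' b' (by
      have q1 := (abs_le.1 (h2 (n + Nat.find ex) (by omega) 1 le_rfl).1).1
      have q2 := Nat.find_spec ex
      have q3 : hh 1 = 1 / 2 := by simp [hh]
      rw [q3] at q1
      rw [div_mul_eq_mul_div, div_le_iff₀ (by positivity)]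
      nlinarith)
  exact ⟨y, by linarith, by linarith, fun t ht h =>
    y3 _ (Finset.mem_image_of_mem φ ht) (hφ t ht y y1 y2 h)⟩

include hpos

theorem long_succ (hgap : ∀ K : ℝ, 0 < K → ∃ D N : ℕ, ∀ n, N ≤ n → ∃ m, n < m ∧ m ≤ n + D ∧
      0 < x m - r m ∧ ∀ j, n + D < j → K * (r j - x j) ≤ x m - r m)
    {k : ℕ} (h : Short x r T k) : Long x T (k + 1) := by
  classical
  intro c hc
  obtain ⟨N1, ih⟩ := h
  obtain ⟨D, N2, hD⟩ := hgap (2 * 4 ^ (k + 1)) (by positivity)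
  obtain ⟨G, hG⟩ := exists_pow_lt_of_lt_one (show 0 < c / 3 by linarith)
    (show (1 / 2 : ℝ) < 1 by norm_num)
  obtain ⟨L, hL⟩ : ∃ L, L = G + (k + 1) * D := ⟨_, rfl⟩
  have pL := hh_pos L
  obtain ⟨N3, hN3⟩ := hloc L (hh L / (5 * (L + 1))) (by positivity)
  refine ⟨max (max N1 N2) (max N3 1), fun p hp s hs a b hab => ?_⟩
  have ph : 0 < x p := hpos p (by omega)
  have hx := hN3 p (by omega)
  have hε : 0 ≤ hh L / (5 * (L + 1)) * x p := by positivity
  have hE : 5 * (L * (hh L / (5 * (L + 1)) * x p)) ≤ x p * hh L := by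
    have : 5 * (L * (hh L / (5 * (L + 1)) * x p)) = x p * hh L * (L / (L + 1)) := by field_simp
    rw [this]
    exact mul_le_of_le_one_right (by positivity) (by
      rw [div_le_one (by positivity)]; linarith)
  generalize hh L / (5 * (L + 1)) * x p = ε at hx hε hE
  have hE0 : 0 ≤ (L : ℝ) * ε := by positivity
  have pc := mul_pos hc ph
  rcases s.eq_empty_or_nonempty with rfl | ⟨t1, ht1⟩
  · exact ⟨a, le_rfl, by linarith, by simp⟩
  obtain ⟨j, hj, hjP⟩ := window (s.erase t1) k (by rw [Finset.card_erase_of_mem ht1]; omega)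
    (fun t i => ∃ c : ℤ, |t1 - t - c * (x p * hh (G + i * D))| ≤ 2 * (L * ε)) (by
      rintro t i i' hii ⟨c, hc⟩
      obtain ⟨d, rfl⟩ := Nat.exists_eq_add_of_le hii
      refine ⟨c * 2 ^ (d * D), ?_⟩
      have e : G + (i + d) * D = G + i * D + d * D := by ring
      rw [hh_add _ (d * D), ← e] at hc
      push_cast
      rwa [mul_assoc, mul_left_comm ((2 : ℝ) ^ (d * D))])
  obtain ⟨M, hM⟩ : ∃ M, M = G + j * D := ⟨_, rfl⟩
  have hMe : G + (j + 1) * D = M + D := by rw [hM]; ring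
  rw [hMe, ← hM] at hjP
  have hML : M + D ≤ L := by
    rw [← hMe, hL]
    exact Nat.add_le_add_left (Nat.mul_le_mul_right _ (by omega)) _
  obtain ⟨m', m1, m2, m3, m4⟩ := hD (p + M) (by omega)
  obtain ⟨m, rfl⟩ : ∃ m, m' = p + m := ⟨m' - p, by omega⟩
  have f1 : x p * hh L ≤ x p * hh (M + D) := mul_le_mul_of_nonneg_left (hh_anti hML) ph.le
  have f2 : x p * hh (M + D) ≤ x p * hh m := mul_le_mul_of_nonneg_left (hh_anti (by omega)) ph.le
  have f3 : x p * hh m ≤ x p * (c / 3) :=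
    mul_le_mul_of_nonneg_left ((hh_anti (show G ≤ m by omega)).trans hG.le) ph.le
  have f5 : 0 < x p * hh m := mul_pos ph (hh_pos _)
  have f6 : 0 < x p * hh L := mul_pos ph pL
  obtain ⟨c0, hc0, hc1, hc2⟩ : ∃ c0 : ℤ, Odd c0 ∧ a + L * ε ≤ t1 + c0 * (x p * hh m) ∧
      t1 + c0 * (x p * hh m) ≤ b - L * ε := by
    generalize x p * hh m = u at *
    obtain ⟨z, hz⟩ : ∃ z, z * (2 * u) = a + L * ε - t1 - u :=
      ⟨(a + L * ε - t1 - u) / (2 * u), by field_simp⟩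
    have hz4 := mul_le_mul_of_nonneg_right (Int.le_ceil z) (by linarith : 0 ≤ 2 * u)
    have hz5 := mul_le_mul_of_nonneg_right (Int.ceil_lt_add_one z).le (by linarith : 0 ≤ 2 * u)
    refine ⟨2 * ⌈z⌉ + 1, ⟨_, rfl⟩, ?_, ?_⟩ <;> push_cast <;> linarith
  obtain ⟨a', ha1, ha2, ha3⟩ := gap hTa hTb ph hε p L hx m (by omega) (by omega) m3 t1 c0 hc0
    (by linarith)
  have hred : ∀ t ∈ s.erase t1, ∃ t' : ℝ, ∀ y, a' ≤ y → y ≤ a' + (x (p + m) - r (p + m)) / 2 →
      y - t ∈ T p → y - t' ∈ T (p + (M + D)) := by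
    intro t ht
    obtain ⟨t', -, -, h⟩ := reduce hTa hTb hε p L hx t a' (a' + (x (p + m) - r (p + m)) / 2)
      (M + D) hML (by
      intro i hi1 hi2
      by_cases him : i = m
      · left
        rw [him]
        linarith
      right
      rintro c2 hc2 ⟨g1, g2⟩
      have g3 : |t1 - t + c0 * (x p * hh m) - c2 * (x p * hh i)| ≤ 2 * (L * ε) := by
        rw [abs_le]; constructor <;> linarith
      rcases hjP t ht with ⟨c3, hc3⟩ | hP
      · obtain ⟨d, hd⟩ : ∃ d, m = M + (d + 1) := ⟨m - M - 1, by omega⟩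
        have := odd_far' ph (j := i) (m := m) (M := M + D) hi2 (by omega) him
          (c1 := 2 * (c3 * 2 ^ d) + c0) (c2 := c2) (by
            obtain ⟨q, rfl⟩ := hc0; exact ⟨c3 * 2 ^ d + q, by ring⟩) hc2
        rw [hh_add M (d + 1), ← hd] at hc3
        have e : ((2 * (c3 * 2 ^ d) + c0 : ℤ) : ℝ) * (x p * hh m) =
            c3 * (x p * (2 ^ (d + 1) * hh m)) + c0 * (x p * hh m) := by push_cast; ring
        rw [abs_le] at g3 hc3
        have g4 : |((2 * (c3 * 2 ^ d) + c0 : ℤ) : ℝ) * (x p * hh m) - c2 * (x p * hh i)| ≤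
            4 * (L * ε) := by
          rw [abs_le, e]
          constructor <;> linarith [g3.1, g3.2, hc3.1, hc3.2]
        linarith
      · apply hP
        obtain ⟨q, hq⟩ := Nat.exists_eq_add_of_le hi2
        obtain ⟨q', hq'⟩ := Nat.exists_eq_add_of_le (show m ≤ M + D by omega)
        refine ⟨c2 * 2 ^ q - c0 * 2 ^ q', le_of_eq_of_le (congrArg _ ?_) g3⟩
        rw [hh_add i q, hh_add m q', ← hq, ← hq']
        push_cast
        ring)
    exact ⟨t', h⟩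
  choose! φ hφ using hred
  obtain ⟨y, hy1, hy2, hy3⟩ := ih (p + (M + D)) (by omega) ((s.erase t1).image φ)
    (le_trans Finset.card_image_le (by rw [Finset.card_erase_of_mem ht1]; omega))
    a' (a' + (x (p + m) - r (p + m)) / 2) (by linarith) fun i hi => by
      have := m4 i (by omega)
      linarith
  refine ⟨y, by linarith, by linarith, fun t ht hmem => ?_⟩
  by_cases htt : t = t1
  · subst htt
    exact ha3 y hy1 hy2 hmem
  · have ht' : t ∈ s.erase t1 := Finset.mem_erase.2 ⟨htt, ht⟩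
    exact hy3 _ (Finset.mem_image_of_mem φ ht') (hφ t ht' y hy1 hy2 hmem)

theorem not_Icc (hx0 : Tendsto x atTop (𝓝 0)) (hk : ∀ k, Long x T k) {B : ℝ}
    (hB : ∃ᶠ n in atTop, 2 ^ n * x n ≤ B) (a b : ℝ) (hab : a < b) : ¬ Icc a b ⊆ T 0 := by
  classical
  intro hsub
  obtain ⟨k, hk'⟩ := exists_nat_ge (8 * B / (b - a))
  obtain ⟨N, H⟩ := hk k 1 one_pos
  obtain ⟨N1, hN1⟩ := hloc 0 1 one_pos
  obtain ⟨n, hBn, hsm, hn⟩ := (hB.and_eventually ((hx0.eventually (gt_mem_nhds (by linarith :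
    0 < (b - a) / 8))).and (eventually_ge_atTop (max N (max N1 1))))).exists
  have ph : 0 < x n := hpos n (by omega)
  have b3 := (abs_le.1 (hN1 n (by omega) 0 le_rfl).2).2
  rw [show hh 0 = 1 from pow_zero _, add_zero] at b3
  obtain ⟨s, hs, hcov⟩ := cover hTb n
  obtain ⟨Q, hQ⟩ : ∃ Q, Q = ⌊(b - a) / (4 * x n)⌋₊ := ⟨_, rfl⟩
  have hQ1 : (Q : ℝ) ≤ (b - a) / (4 * x n) := hQ ▸ Nat.floor_le (by
    apply div_nonneg <;> linarith)
  have hQ2 : (b - a) / (4 * x n) < Q + 1 := hQ ▸ Nat.lt_floor_add_one _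
  rw [le_div_iff₀ (by linarith)] at hQ1
  rw [div_lt_iff₀ (by linarith)] at hQ2
  have hQ3 : (b - a) / 8 ≤ Q * x n := by nlinarith
  have hQ4 : (0 : ℝ) < Q := (mul_pos_iff_of_pos_right ph).1 (by linarith)
  have hcard : s.card ≤ (Finset.Ico (0 : ℤ) Q).card * k := by
    have h1 : (2 : ℝ) ^ n ≤ Q * k := by
      rw [div_le_iff₀ (by linarith)] at hk'
      have : (0 : ℝ) ≤ k := Nat.cast_nonneg k
      exact le_of_mul_le_mul_right (by nlinarith) ph
    have h3 : 2 ^ n ≤ Q * k := by exact_mod_cast h1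
    simpa using le_trans hs h3
  obtain ⟨q, hq, hfib⟩ := Finset.exists_card_fiber_le_of_card_le_mul
    (f := fun t : ℝ => ⌊(t - a) / (4 * x n)⌋) (t := Finset.Ico (0 : ℤ) Q)
    ⟨0, by simpa using hQ4⟩ hcard
  rw [Finset.mem_Ico] at hq
  have q1 : (0 : ℝ) ≤ q := by exact_mod_cast hq.1
  have q2 : (q : ℝ) + 1 ≤ Q := by exact_mod_cast hq.2
  obtain ⟨y, hy1, hy2, hy3⟩ := H n (by omega) _ hfib (a + (4 * q + 2) * x n)
    (a + (4 * q + 3) * x n) (by linarith)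
  obtain ⟨t, ht, hmem⟩ := hcov y (hsub ⟨by nlinarith, by nlinarith⟩)
  refine hy3 t (Finset.mem_filter.2 ⟨ht, ?_⟩) hmem
  obtain ⟨b1, b2⟩ := hTa _ _ hmem
  rw [Int.floor_eq_iff, le_div_iff₀ (by linarith), div_lt_iff₀ (by linarith)]
  constructor <;> nlinarith

theorem interior_empty (hr : ∀ n, r n = x (n + 1) + r (n + 1)) (hx0 : Tendsto x atTop (𝓝 0))
    (hgap : ∀ K : ℝ, 0 < K → ∃ D N : ℕ, ∀ n, N ≤ n → ∃ m, n < m ∧ m ≤ n + D ∧
      0 < x m - r m ∧ ∀ j, n + D < j → K * (r j - x j) ≤ x m - r m)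
    {B : ℝ} (hB : ∃ᶠ n in atTop, 2 ^ n * x n ≤ B) : interior (T 0) = ∅ := by
  have hk : ∀ k, Long x T k := fun k => by
    induction k with
    | zero =>
      refine fun c hc => ⟨1, fun p hp s hs a b hab => ⟨a, le_rfl, ?_, ?_⟩⟩
      · linarith [mul_pos hc (hpos p hp)]
      · simp [Finset.card_eq_zero.1 (Nat.le_zero.1 hs)]
    | succ k ih => exact long_succ hTa hTb hpos hloc hgap (short_of_long hTa hTb hloc hr hx0 ih)
  by_contra hcon
  obtain ⟨y, hy⟩ := Set.nonempty_iff_ne_empty.2 hcon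
  rw [mem_interior_iff_mem_nhds, Metric.mem_nhds_iff] at hy
  obtain ⟨ε, hε, h⟩ := hy
  refine not_Icc hTa hTb hpos hloc hx0 hk hB y (y + ε / 2) (by linarith) (fun z hz => h ?_)
  rw [Metric.mem_ball, Real.dist_eq, abs_lt]
  constructor <;> linarith [hz.1, hz.2]

end Pool.Agent.P.MP_c19edd_an.Gen
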