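import Pool.Agent.Lib.CantorChar.Basic
import Pool.Agent.P.MP_c19edd_an.Gen2

/-! The Cantor set criterion at the critical ratio one half. -/

open Set Filter Topology

namespace Pool.Agent.P.MP_c19edd_an.Gen

/-- Subsums of the terms with index larger than `n`. -/
def TT (x : ℕ → ℝ) (n : ℕ) : Set ℝ :=
  {y | ∃ A : Set ℕ, (∀ i ∈ A, n < i) ∧ HasSum (A.indicator x) y}

variable {x : ℕ → ℝ}

theorem TT_eq : {y : ℝ | ∃ A : Set ℕ, (∀ n ∈ A, 1 ≤ n) ∧ HasSum (fun n : A => x n) y} = TT x 0 :=
  Set.ext fun _ => exists_congr fun _ => and_congr Iff.rfl (hasSum_subtype_iff_indicator (f := x))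

theorem hasSum_remove {A : Set ℕ} {m : ℕ} (hm : m ∈ A) {y : ℝ} (hy : HasSum (A.indicator x) y) :
    HasSum ((A \ {m}).indicator x) (y - x m) := by
  classical
  have e : (A \ {m}).indicator x = fun i => A.indicator x i - if i = m then x m else 0 := by
    ext i
    by_cases h : i = m
    · subst h
      simp [hm]
    · by_cases h' : i ∈ A <;> simp [h, h']
  rw [e]
  exact hy.sub (hasSum_ite_eq m (x m))

theorem hasSum_insert {A : Set ℕ} {m : ℕ} (hm : m ∉ A) {y : ℝ} (hy : HasSum (A.indicator x) y) :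
    HasSum ((insert m A).indicator x) (y + x m) := by
  classical
  have e : (insert m A).indicator x = fun i => A.indicator x i + if i = m then x m else 0 := by
    ext i
    by_cases h : i = m
    · subst h
      simp [hm]
    · by_cases h' : i ∈ A <;> simp [h, h']
  rw [e]
  exact hy.add (hasSum_ite_eq m (x m))

theorem TT_b (n : ℕ) (y : ℝ) (hy : y ∈ TT x n) :
    y ∈ TT x (n + 1) ∨ y - x (n + 1) ∈ TT x (n + 1) := by
  obtain ⟨A, hA, hy⟩ := hy
  by_cases h : n + 1 ∈ A
  · refine Or.inr ⟨A \ {n + 1}, ?_, hasSum_remove h hy⟩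
    rintro i ⟨hi1, hi2⟩
    have := hA i hi1
    have : i ≠ n + 1 := hi2
    omega
  · refine Or.inl ⟨A, fun i hi => ?_, hy⟩
    have := hA i hi
    have : i ≠ n + 1 := fun h' => h (h' ▸ hi)
    omega

theorem TT_compact (hs : Summable x) : IsCompact (TT x 0) := by
  classical
  let g : ℕ → (ℕ → Bool) → ℝ := fun i ω => if 0 < i ∧ ω i = true then x i else 0
  have hg : ∀ i, Continuous (g i) := fun i =>
    (continuous_of_discreteTopology (f := fun b : Bool => if 0 < i ∧ b = true then x i else 0)).comp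
      (continuous_apply i)
  have hbound : ∀ i ω, ‖g i ω‖ ≤ |x i| := by
    intro i ω
    simp only [g]
    split_ifs
    · exact le_rfl
    · simp
  have hc : Continuous (fun ω => ∑' i, g i ω) := continuous_tsum hg hs.abs hbound
  have he : TT x 0 = range (fun ω => ∑' i, g i ω) := by
    ext y
    constructor
    · rintro ⟨A, hA, hy⟩
      refine ⟨fun i => decide (i ∈ A), ?_⟩
      rw [← hy.tsum_eq]
      refine tsum_congr (fun i => ?_)
      by_cases h : i ∈ A
      · simp [g, h, hA i h]
      · simp [g, h]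
    · rintro ⟨ω, rfl⟩
      refine ⟨{i | 0 < i ∧ ω i = true}, fun i hi => hi.1, ?_⟩
      have e : {i | 0 < i ∧ ω i = true}.indicator x = fun i => g i ω := by
        ext i
        by_cases h : 0 < i ∧ ω i = true
        · rw [indicator_of_mem (by exact h)]; simp only [g]; rw [if_pos h]
        · rw [indicator_of_notMem (by exact h)]; simp only [g]; rw [if_neg h]
      rw [e]
      exact (Summable.of_norm_bounded hs.abs (fun i => hbound i ω)).hasSum
  rw [he]
  exact isCompact_range hc

theorem tail_succ (hs : Summable x) (n : ℕ) :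
    ∑' i, x (n + 1 + i) = x (n + 1) + ∑' i, x (n + 1 + 1 + i) := by
  have h : Summable fun i => x (n + 1 + i) := hs.comp_injective (add_right_injective _)
  rw [h.tsum_eq_zero_add]
  exact congrArg _ (tsum_congr fun i => congrArg x (by omega))

variable (hpos : ∀ n, 1 ≤ n → 0 < x n)
include hpos

theorem TT_a (hs : Summable x) (n : ℕ) : ∀ y ∈ TT x n, 0 ≤ y ∧ y ≤ ∑' i, x (n + 1 + i) := by
  rintro y ⟨A, hA, hy⟩
  have h0 : ∀ i, 0 ≤ A.indicator x i := fun i =>
    indicator_apply_nonneg fun hi => (hpos i (by have := hA i hi; omega)).le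
  refine ⟨hy.nonneg h0, ?_⟩
  have h1 : HasSum (fun i => A.indicator x (n + 1 + i)) y := by
    refine ((add_right_injective (n + 1)).hasSum_iff (f := A.indicator x) fun i hi => ?_).2 hy
    refine indicator_of_notMem (fun h => hi ⟨i - (n + 1), ?_⟩) _
    have := hA i h
    show n + 1 + (i - (n + 1)) = i
    omega
  refine hasSum_le (fun i => ?_) h1 (hs.comp_injective (add_right_injective (n + 1))).hasSum
  exact indicator_apply_le' (fun _ => le_rfl) fun _ => (hpos (n + 1 + i) (by omega)).le

theorem TT_preperfect (hs : Summable x) : Preperfect (TT x 0) := by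
  rintro y ⟨A, hA, hy⟩
  rw [accPt_iff_nhds]
  intro U hU
  obtain ⟨ε, hε, hball⟩ := Metric.mem_nhds_iff.1 hU
  obtain ⟨N, hN⟩ := eventually_atTop.1 (hs.tendsto_atTop_zero.eventually (gt_mem_nhds hε))
  have h1 := hN (N + 1) (by omega)
  have h2 := hpos (N + 1) (by omega)
  by_cases h : N + 1 ∈ A
  · refine ⟨y - x (N + 1), ⟨hball ?_, A \ {N + 1}, fun i hi => hA i hi.1, hasSum_remove h hy⟩,
      by linarith⟩
    rw [Metric.mem_ball, Real.dist_eq, abs_lt]
    constructor <;> linarith
  · refine ⟨y + x (N + 1), ⟨hball ?_, insert (N + 1) A, ?_, hasSum_insert h hy⟩, by linarith⟩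
    · rw [Metric.mem_ball, Real.dist_eq, abs_lt]
      constructor <;> linarith
    · rintro i (rfl | hi)
      · omega
      · exact hA i hi

variable (hq : Tendsto (fun n => x (n + 1) / x n) atTop (𝓝 (1 / 2)))
include hq

theorem summable_x : Summable x :=
  summable_of_ratio_test_tendsto_lt_one (l := 1 / 2) (by norm_num)
    ((eventually_ge_atTop 1).mono fun n hn => (hpos n hn).ne')
    (hq.congr' ((eventually_ge_atTop 1).mono fun n hn => by
      simp only [Real.norm_eq_abs, abs_of_pos (hpos n hn), abs_of_pos (hpos (n + 1) (by omega))]))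

theorem ratio (i : ℕ) : Tendsto (fun p => x (p + i) / x p) atTop (𝓝 (hh i)) := by
  induction i with
  | zero =>
    refine (tendsto_const_nhds (x := hh 0)).congr' ((eventually_ge_atTop 1).mono fun n hn => ?_)
    simp [hh, (hpos n hn).ne']
  | succ i ih =>
    have h := (hq.comp (tendsto_add_atTop_nat i)).mul ih
    rw [show 1 / 2 * hh i = hh (i + 1) by rw [hh_succ i]; ring] at h
    refine h.congr' ((eventually_ge_atTop 1).mono fun n hn => ?_)
    have := (hpos (n + i) (by omega)).ne'
    simp only [Function.comp, ← add_assoc]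
    rw [div_mul_div_cancel₀ this]

theorem ratio_tail : Tendsto (fun p => (∑' i, x (p + 1 + i)) / x p) atTop (𝓝 1) := by
  obtain ⟨N, hN⟩ := eventually_atTop.1 (hq.eventually (gt_mem_nhds (by norm_num :
    (1 / 2 : ℝ) < 3 / 4)))
  have h := tendsto_tsum_of_dominated_convergence (𝓕 := atTop)
    (f := fun p i => x (p + 1 + i) / x p) (g := fun i => 1 / 2 / 2 ^ i)
    (bound := fun i => (3 / 4 : ℝ) ^ i) (summable_geometric_of_lt_one (by norm_num) (by norm_num))
    (fun i => by
      have := ratio hpos hq (1 + i)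
      rw [show hh (1 + i) = 1 / 2 / 2 ^ i by simp [hh, pow_add, div_eq_mul_inv]] at this
      simpa only [add_assoc] using this)
    ((eventually_ge_atTop (max N 1)).mono fun p hp i => by
      have p0 := hpos p (by omega)
      rw [Real.norm_eq_abs, abs_of_pos (div_pos (hpos _ (by omega)) p0), div_le_iff₀ p0]
      induction i with
      | zero =>
        have := (div_lt_iff₀ p0).1 (hN p (by omega))
        rw [add_zero]
        linarith
      | succ i ih =>
        have := (div_lt_iff₀ (hpos _ (by omega))).1 (hN (p + 1 + i) (by omega))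
        rw [← add_assoc, pow_succ]
        linarith)
  rw [tsum_geometric_two'] at h
  simpa only [tsum_div_const] using h

theorem loc (L : ℕ) (η : ℝ) (hη : 0 < η) : ∃ N, ∀ p, N ≤ p → ∀ i ≤ L,
    |x (p + i) - x p * hh i| ≤ η * x p ∧ |∑' j, x (p + i + 1 + j) - x p * hh i| ≤ η * x p := by
  have key : ∀ {z : ℕ → ℝ} {c : ℝ}, Tendsto (fun p => z p / x p) atTop (𝓝 c) →
      ∀ᶠ p in atTop, |z p - x p * c| ≤ η * x p := fun {z c} h =>
    ((h.eventually (Metric.closedBall_mem_nhds c hη)).and (eventually_ge_atTop 1)).mono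
      fun p ⟨h1, h2⟩ => by
        have p0 := hpos p h2
        rw [Real.dist_eq, ← mul_le_mul_iff_left₀ p0, ← abs_of_pos p0, ← abs_mul, abs_of_pos p0,
          sub_mul, div_mul_cancel₀ _ p0.ne', mul_comm c] at h1
        exact h1
  refine eventually_atTop.1 ((eventually_all_finite (finite_Iic L)).2 fun i _ =>
    (key (ratio hpos hq i)).and (key ?_))
  have h := ((ratio_tail hpos hq).comp (tendsto_add_atTop_nat i)).mul (ratio hpos hq i)
  rw [one_mul] at h
  refine h.congr' ((eventually_ge_atTop 1).mono fun n hn => ?_)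
  simp only [Function.comp]
  rw [div_mul_div_cancel₀ (hpos (n + i) (by omega)).ne']

theorem crit {B : ℝ} (hB : ∃ᶠ n in atTop, 2 ^ n * x n ≤ B)
    (hgap : ∀ K : ℝ, 0 < K → ∃ D N : ℕ, ∀ n, N ≤ n → ∃ m, n < m ∧ m ≤ n + D ∧
      0 < x m - ∑' i, x (m + 1 + i) ∧
      ∀ j, n + D < j → K * (∑' i, x (j + 1 + i) - x j) ≤ x m - ∑' i, x (m + 1 + i)) :
    Nonempty ({y : ℝ | ∃ A : Set ℕ, (∀ n ∈ A, 1 ≤ n) ∧ HasSum (fun n : A => x n) y} ≃ₜ
      cantorSet) := by
  have hs := summable_x hpos hq
  rw [TT_eq]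
  exact Pool.Agent.Lib.CantorChar.homeo_cantorSet (TT_compact hs) (TT_preperfect hpos hs)
    ⟨0, ∅, by simp, by simp⟩ (interior_empty (r := fun n => ∑' i, x (n + 1 + i)) (TT_a hpos hs)
      TT_b hpos (loc hpos hq) (tail_succ hs) hs.tendsto_atTop_zero hgap hB)

end Pool.Agent.P.MP_c19edd_an.Gen
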