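import Mathlib
import Pool.Agent.Lib.CantorChar.Basic
import Pool.Agent.P.MP_c19edd_an.Core

set_option autoImplicit false

open Set Filter Topology

namespace Pool.Agent.P.MP_c19edd_an

/-- subsums of the terms with index larger than `n` -/
def TT (n : ℕ) : Set ℝ := {y | ∃ A : Set ℕ, (∀ i ∈ A, n < i) ∧ HasSum (A.indicator xx) y}

theorem xx_nonneg (n : ℕ) : 0 ≤ xx n := by
  have := le_xx n
  have := ee_le_hh n
  linarith

theorem xx_pos {n : ℕ} (hn : 1 ≤ n) : 0 < xx n := by
  have h1 := le_xx n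
  have h2 : ee n < hh n := by
    unfold ee hh
    exact pow_lt_pow_left₀ (by norm_num) (by norm_num) (by omega)
  linarith

theorem xx_le_two (n : ℕ) : xx n ≤ 2 * hh n := by
  have := xx_le n
  have := ee_le_hh n
  linarith

theorem summable_hh : Summable hh := summable_geometric_two

theorem summable_xx : Summable xx :=
  Summable.of_nonneg_of_le xx_nonneg xx_le_two (summable_hh.mul_left 2)

theorem hasSum_tail (n : ℕ) : HasSum (fun i => xx (i + (n + 1))) (rr n) := by
  have h1 := (hasSum_geometric_of_abs_lt_one (r := (1 / 2 : ℝ)) (by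
    rw [abs_of_pos] <;> norm_num)).mul_left ((1 / 2 : ℝ) ^ (n + 1))
  have h2 := (hasSum_geometric_of_abs_lt_one (r := (-1 / 3 : ℝ)) (by
    rw [abs_of_neg] <;> norm_num)).mul_left ((-1 / 3 : ℝ) ^ (n + 1))
  have h3 := h1.add h2
  have e1 : (fun i => xx (i + (n + 1))) =
      fun b => (1 / 2 : ℝ) ^ (n + 1) * (1 / 2) ^ b + (-1 / 3) ^ (n + 1) * (-1 / 3) ^ b := by
    ext i
    unfold xx
    rw [← pow_add, ← pow_add, add_comm (n + 1) i, div_pow, div_pow, one_pow]
  have e2 : rr n = (1 / 2 : ℝ) ^ (n + 1) * (1 - 1 / 2)⁻¹ + (-1 / 3) ^ (n + 1) * (1 - -1 / 3)⁻¹ := by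
    unfold rr
    rw [div_pow, div_pow, one_pow, pow_succ, pow_succ, pow_succ]
    field_simp
    ring
  rw [e1, e2]
  exact h3

theorem hasSum_Ioi (n : ℕ) : HasSum ((Ioi n).indicator xx) (rr n) := by
  have h := hasSum_tail n
  have h2 : HasSum (fun i => (Ioi n).indicator xx (i + (n + 1))) (rr n) := by
    convert h using 2 with i
    rw [indicator_of_mem]
    show n < i + (n + 1)
    omega
  have h3 := (hasSum_nat_add_iff (n + 1)).1 h2
  have h4 : ∑ i ∈ Finset.range (n + 1), (Ioi n).indicator xx i = 0 := by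
    apply Finset.sum_eq_zero
    intro i hi
    rw [indicator_of_notMem]
    simp at hi ⊢
    omega
  rwa [h4, add_zero] at h3

theorem TT_a (n : ℕ) : ∀ y ∈ TT n, 0 ≤ y ∧ y ≤ rr n := by
  rintro y ⟨A, hA, hy⟩
  constructor
  · exact hy.nonneg (fun i => indicator_nonneg (fun j _ => xx_nonneg j) i)
  · refine hasSum_le (fun i => ?_) hy (hasSum_Ioi n)
    exact indicator_le_indicator_of_subset (fun i hi => hA i hi) xx_nonneg i

theorem hasSum_remove {A : Set ℕ} {m : ℕ} (hm : m ∈ A) {y : ℝ} (hy : HasSum (A.indicator xx) y) :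
    HasSum ((A \ {m}).indicator xx) (y - xx m) := by
  classical
  have h1 : HasSum (fun i => if i = m then xx m else 0) (xx m) := hasSum_ite_eq m (xx m)
  have e : (A \ {m}).indicator xx = fun i => A.indicator xx i - if i = m then xx m else 0 := by
    ext i
    by_cases h : i = m
    · subst h
      simp [hm]
    · by_cases h' : i ∈ A <;> simp [h, h']
  rw [e]
  exact hy.sub h1

theorem hasSum_insert {A : Set ℕ} {m : ℕ} (hm : m ∉ A) {y : ℝ} (hy : HasSum (A.indicator xx) y) :
    HasSum ((insert m A).indicator xx) (y + xx m) := by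
  classical
  have h1 : HasSum (fun i => if i = m then xx m else 0) (xx m) := hasSum_ite_eq m (xx m)
  convert hy.add h1 using 2 with i
  by_cases h : i = m
  · subst h
    simp [hm]
  · by_cases h' : i ∈ A <;> simp [h, h']

theorem TT_b (n : ℕ) (y : ℝ) (hy : y ∈ TT n) : y ∈ TT (n + 1) ∨ y - xx (n + 1) ∈ TT (n + 1) := by
  obtain ⟨A, hA, hy⟩ := hy
  by_cases h : n + 1 ∈ A
  · right
    refine ⟨A \ {n + 1}, ?_, hasSum_remove h hy⟩
    rintro i ⟨hi1, hi2⟩
    have := hA i hi1
    have : i ≠ n + 1 := hi2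
    omega
  · left
    refine ⟨A, fun i hi => ?_, hy⟩
    have := hA i hi
    have : i ≠ n + 1 := fun h' => h (h' ▸ hi)
    omega

theorem TT_interior : interior (TT 0) = ∅ := interior_empty TT TT_a TT_b

theorem TT_nonempty : (TT 0).Nonempty := ⟨0, ∅, by simp, by simp⟩

theorem TT_preperfect : Preperfect (TT 0) := by
  rintro y ⟨A, hA, hy⟩
  rw [accPt_iff_nhds]
  intro U hU
  obtain ⟨ε, hε, hball⟩ := Metric.mem_nhds_iff.1 hU
  have ht : Tendsto xx atTop (𝓝 0) := summable_xx.tendsto_atTop_zero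
  obtain ⟨N, hN⟩ := eventually_atTop.1 (ht.eventually (gt_mem_nhds hε))
  have h1 := hN (N + 1) (by omega)
  have h2 := xx_pos (n := N + 1) (by omega)
  by_cases h : N + 1 ∈ A
  · refine ⟨y - xx (N + 1), ⟨hball ?_, A \ {N + 1}, fun i hi => hA i hi.1, hasSum_remove h hy⟩,
      by linarith⟩
    rw [Metric.mem_ball, Real.dist_eq, abs_lt]
    constructor <;> linarith
  · refine ⟨y + xx (N + 1), ⟨hball ?_, insert (N + 1) A, ?_, hasSum_insert h hy⟩, by linarith⟩
    · rw [Metric.mem_ball, Real.dist_eq, abs_lt]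
      constructor <;> linarith
    · rintro i (rfl | hi)
      · omega
      · exact hA i hi

theorem TT_compact : IsCompact (TT 0) := by
  classical
  let g : ℕ → (ℕ → Bool) → ℝ := fun i ω => if 0 < i ∧ ω i = true then xx i else 0
  have hg : ∀ i, Continuous (g i) := by
    intro i
    have : g i = (fun b : Bool => if 0 < i ∧ b = true then xx i else 0) ∘ (fun ω => ω i) := rfl
    rw [this]
    exact continuous_of_discreteTopology.comp (continuous_apply i)
  have hbound : ∀ i ω, ‖g i ω‖ ≤ xx i := by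
    intro i ω
    have := xx_nonneg i
    simp only [g]
    split_ifs
    · rw [Real.norm_eq_abs, abs_of_nonneg this]
    · simpa using this
  have hc : Continuous (fun ω => ∑' i, g i ω) := continuous_tsum hg summable_xx hbound
  have hsum : ∀ ω, Summable (fun i => g i ω) := fun ω =>
    Summable.of_norm_bounded summable_xx (fun i => hbound i ω)
  have he : TT 0 = range (fun ω => ∑' i, g i ω) := by
    ext y
    constructor
    · rintro ⟨A, hA, hy⟩
      refine ⟨fun i => decide (i ∈ A), ?_⟩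
      rw [← hy.tsum_eq]
      refine tsum_congr (fun i => ?_)
      by_cases h : i ∈ A
      · simp [g, h, hA i h]
      · simp [g, h]
    · rintro ⟨ω, rfl⟩
      refine ⟨{i | 0 < i ∧ ω i = true}, fun i hi => hi.1, ?_⟩
      convert (hsum ω).hasSum using 2 with i
      by_cases h : 0 < i ∧ ω i = true
      · rw [indicator_of_mem (by exact h)]; simp [g, h]
      · rw [indicator_of_notMem (by exact h)]; simp only [g]; rw [if_neg h]
  rw [he]
  exact isCompact_range hc

theorem main : Nonempty ({y : ℝ | ∃ A : Set ℕ, (∀ n ∈ A, 1 ≤ n) ∧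
    HasSum (fun n : A => (1 : ℝ) / 2 ^ (n : ℕ) + (-1) ^ (n : ℕ) / 3 ^ (n : ℕ)) y} ≃ₜ cantorSet) := by
  have he : {y : ℝ | ∃ A : Set ℕ, (∀ n ∈ A, 1 ≤ n) ∧
      HasSum (fun n : A => (1 : ℝ) / 2 ^ (n : ℕ) + (-1) ^ (n : ℕ) / 3 ^ (n : ℕ)) y} = TT 0 := by
    ext y
    constructor
    · rintro ⟨A, hA, hy⟩
      exact ⟨A, fun i hi => hA i hi, (hasSum_subtype_iff_indicator (f := xx)).1 hy⟩
    · rintro ⟨A, hA, hy⟩
      exact ⟨A, fun i hi => hA i hi, (hasSum_subtype_iff_indicator (f := xx)).2 hy⟩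
  rw [he]
  exact Pool.Agent.Lib.CantorChar.homeo_cantorSet TT_compact TT_preperfect TT_nonempty TT_interior

end Pool.Agent.P.MP_c19edd_an
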