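import Pool.Agent.P.MP_c19edd_an.Gen3

/-! Windows of unbounded length are not enough. -/

open Set Filter Topology

namespace Pool.Agent.P.MP_c19edd_an.Gen

variable (w : ℕ → ℕ)

/-- The indices of the perturbed terms. -/
def nu : ℕ → ℕ
  | 0 => 1
  | i + 1 => nu i + w (nu i) + 2

open Classical in
/-- The perturbation. -/
noncomputable def pe (n : ℕ) : ℝ := if n ∈ range (nu w) then hh (n + w n + 2) else 0

/-- The perturbed geometric sequence. -/
noncomputable def xs (n : ℕ) : ℝ := hh n + pe w n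

theorem nu_mono : StrictMono (nu w) := strictMono_nat_of_lt_succ fun i => by
  rw [nu]
  omega

theorem pe_nonneg (n : ℕ) : 0 ≤ pe w n := by
  rw [pe]
  split_ifs
  exacts [(hh_pos _).le, le_rfl]

theorem pe_le (n : ℕ) : pe w n ≤ hh n * hh (w n + 2) := by
  rw [pe]
  split_ifs
  · rw [hh, hh, hh, ← pow_add, add_assoc]
  · exact (mul_pos (hh_pos _) (hh_pos _)).le

theorem xs_pos (n : ℕ) : 0 < xs w n := add_pos_of_pos_of_nonneg (hh_pos n) (pe_nonneg w n)

theorem hh_le_one (n : ℕ) : hh n ≤ 1 := pow_le_one₀ (by norm_num) (by norm_num)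

theorem pow_hh (n : ℕ) : 2 ^ n * hh n = 1 := by
  rw [hh, ← mul_pow]
  norm_num

theorem xs_bound (n : ℕ) : 2 ^ n * xs w n ≤ 2 := by
  have h1 := pe_le w n
  have h2 := mul_le_of_le_one_right (hh_pos n).le (hh_le_one (w n + 2))
  have h3 := mul_le_mul_of_nonneg_left (h1.trans h2) (by positivity : (0 : ℝ) ≤ 2 ^ n)
  rw [xs, mul_add, pow_hh] at *
  linarith

theorem hasSum_hh (n : ℕ) : HasSum (fun i => hh (n + 1 + i)) (hh n) := by
  have h := (hasSum_geometric_two.mul_left (hh (n + 1)))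
  rw [mul_comm, ← hh_succ] at h
  simpa only [hh, pow_add] using h

theorem summable_pe : Summable (pe w) :=
  Summable.of_nonneg_of_le (pe_nonneg w)
    (fun n => (pe_le w n).trans (mul_le_of_le_one_right (hh_pos n).le (hh_le_one _)))
    summable_geometric_two

theorem summable_xs : Summable (xs w) := summable_geometric_two.add (summable_pe w)

theorem tail_xs (n : ℕ) : ∑' i, xs w (n + 1 + i) = hh n + ∑' i, pe w (n + 1 + i) :=
  ((hasSum_hh n).add ((summable_pe w).comp_injective (add_right_injective (n + 1))).hasSum).tsum_eq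

theorem tail_pe_anti : Antitone fun n => ∑' i, pe w (n + 1 + i) :=
  antitone_nat_of_succ_le fun n => by
    have := tail_succ (summable_pe w) n
    have := pe_nonneg w (n + 1)
    linarith

/-- No perturbed index lies strictly between two consecutive ones. -/
theorem tail_pe_eq (l d : ℕ) (h : nu w l + d < nu w (l + 1)) :
    ∑' i, pe w (nu w l + 1 + i) = ∑' i, pe w (nu w l + d + 1 + i) := by
  induction d with
  | zero => rfl
  | succ d ih =>
    rw [ih (by omega), tail_succ (summable_pe w), pe, if_neg, zero_add]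
    · rfl
    · rintro ⟨i, hi⟩
      have h1 := (nu_mono w).lt_iff_lt.1 (show nu w l < nu w i by omega)
      have h2 := (nu_mono w).lt_iff_lt.1 (show nu w i < nu w (l + 1) by omega)
      omega

variable {w}

theorem tail_pe_le (hw : Monotone w) (l : ℕ) :
    ∑' i, pe w (nu w l + 1 + i) ≤ hh (nu w (l + 1)) / 2 * hh (w (nu w (l + 1))) := by
  obtain ⟨d, hd⟩ : ∃ d, nu w (l + 1) = nu w l + d + 1 := ⟨w (nu w l) + 1, rfl⟩
  rw [tail_pe_eq w l d (by omega)]
  refine (hasSum_le (fun i => (pe_le w _).trans (mul_le_mul_of_nonneg_left (hh_anti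
    (Nat.add_le_add_right (hw (show nu w (l + 1) ≤ _ by omega)) 2)) (hh_pos _).le))
    ((summable_pe w).comp_injective (add_right_injective _)).hasSum
    ((hasSum_hh (nu w l + d)).mul_right _)).trans (le_of_eq ?_)
  rw [hh_succ (nu w l + d), ← hd, hh_add (w (nu w (l + 1))) 2]
  ring

theorem w_top (hw : Monotone w) (hu : ¬ BddAbove (range w)) : Tendsto w atTop atTop :=
  tendsto_atTop_atTop_of_monotone hw fun b => by
    obtain ⟨_, ⟨n, rfl⟩, h⟩ := not_bddAbove_iff.1 hu b
    exact ⟨n, h.le⟩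

theorem hh_zero : Tendsto hh atTop (𝓝 0) :=
  tendsto_pow_atTop_nhds_zero_of_lt_one (by norm_num) (by norm_num)

theorem xs_lim (ht : Tendsto w atTop atTop) : Tendsto (fun n => 2 ^ n * xs w n) atTop (𝓝 1) := by
  have h : Tendsto (fun n => 1 + hh (w n + 2)) atTop (𝓝 (1 + 0)) :=
    tendsto_const_nhds.add (hh_zero.comp ((tendsto_add_atTop_nat 2).comp ht))
  rw [add_zero] at h
  refine tendsto_of_tendsto_of_tendsto_of_le_of_le tendsto_const_nhds h (fun n => ?_) fun n => ?_
  · have := mul_nonneg (by positivity : (0 : ℝ) ≤ 2 ^ n) (pe_nonneg w n)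
    simp only [xs, mul_add, pow_hh]
    linarith
  · have := mul_le_mul_of_nonneg_left (pe_le w n) (by positivity : (0 : ℝ) ≤ 2 ^ n)
    rw [← mul_assoc, pow_hh, one_mul] at this
    simp only [xs, mul_add, pow_hh]
    linarith

theorem ratio_of_lim {x : ℕ → ℝ} (h : Tendsto (fun n => 2 ^ n * x n) atTop (𝓝 1)) :
    Tendsto (fun n => x (n + 1) / x n) atTop (𝓝 (1 / 2)) := by
  have h2 := ((h.comp (tendsto_add_atTop_nat 1)).div h one_ne_zero).div_const 2
  rw [div_one] at h2
  refine h2.congr fun n => ?_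
  simp only [Function.comp, Pi.div_apply, pow_succ]
  rw [mul_assoc, mul_div_mul_left _ _ (by positivity), mul_div_assoc, mul_div_cancel_left₀ _ two_ne_zero]

theorem xs_gap (hw : Monotone w) (ht : Tendsto w atTop atTop) (K : ℝ) (hK : 0 < K) :
    ∃ N : ℕ, ∀ n, N ≤ n → ∃ m, n < m ∧ m ≤ n + w n + 2 ∧ 0 < xs w m - ∑' i, xs w (m + 1 + i) ∧
      ∀ j, n + w n + 2 < j →
        K * (∑' i, xs w (j + 1 + i) - xs w j) ≤ xs w m - ∑' i, xs w (m + 1 + i) := by
  obtain ⟨N, hN⟩ := eventually_atTop.1 ((hh_zero.comp ht).eventually (gt_mem_nhds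
    (inv_pos.2 hK)))
  refine ⟨max N 1, fun n hn => ?_⟩
  have ex : ∃ l, n < nu w (l + 1) := ⟨n, (nu_mono w).le_apply⟩
  obtain ⟨l, h1, h2⟩ : ∃ l, nu w l ≤ n ∧ n < nu w (l + 1) := by
    refine ⟨Nat.find ex, ?_, Nat.find_spec ex⟩
    rcases h : Nat.find ex with _ | l
    · exact le_of_max_le_right hn
    · exact not_lt.1 (Nat.find_min ex (by omega))
  have h3 : nu w (l + 1) ≤ n + w n + 2 := by
    have := hw h1
    rw [nu]
    omega
  have h4 := tail_pe_le hw (l + 1)
  have h5 : pe w (nu w (l + 1)) = hh (nu w (l + 1 + 1)) := if_pos ⟨_, rfl⟩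
  have h6 : K * hh (w (nu w (l + 1 + 1))) ≤ 1 := by
    have := hN (nu w (l + 1 + 1)) (by have := nu_mono w (Nat.lt_add_one (l + 1)); omega)
    exact (mul_le_mul_of_nonneg_left this.le hK.le).trans (mul_inv_cancel₀ hK.ne').le
  have h7 := hh_pos (nu w (l + 1 + 1))
  have h8 := mul_le_of_le_one_right (half_pos h7).le (hh_le_one (w (nu w (l + 1 + 1))))
  refine ⟨nu w (l + 1), h2, h3, by rw [tail_xs, xs]; linarith, fun j hj => ?_⟩
  have h9 : ∑' i, pe w (j + 1 + i) ≤ _ := tail_pe_anti w (show nu w (l + 1) ≤ j by omega)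
  have h10 := mul_le_mul_of_nonneg_left (show ∑' i, xs w (j + 1 + i) - xs w j ≤
    hh (nu w (l + 1 + 1)) / 2 * hh (w (nu w (l + 1 + 1))) by
      rw [tail_xs, xs]; linarith [pe_nonneg w j]) hK.le
  have h11 := mul_le_mul_of_nonneg_left h6 (half_pos h7).le
  rw [tail_xs w (nu w (l + 1)), xs.eq_1 w (nu w (l + 1))]
  nlinarith

variable (w)

open Classical in
/-- The dyadic level of a term. -/
noncomputable def lev (n : ℕ) : ℕ := if n ∈ range (nu w) then n + w n + 2 else n

theorem exists_lev (N : ℕ) :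
    ∃ n, 1 ≤ n ∧ lev w n = N + 2 ∧ ∃ c : ℤ, xs w n = (2 * c + 1) * hh (N + 2) := by
  by_cases h : N + 2 ∈ range (nu w)
  · obtain ⟨_ | l, hl⟩ := h
    · exact absurd hl (by rw [nu]; omega)
    · refine ⟨nu w l, (nu_mono w).monotone (Nat.zero_le l), (if_pos ⟨l, rfl⟩).trans hl,
        2 ^ (w (nu w l) + 1), ?_⟩
      rw [xs, pe, if_pos ⟨l, rfl⟩, hh_add _ (w (nu w l) + 2), ← add_assoc, ← hl, nu]
      push_cast
      ring
  · exact ⟨N + 2, by omega, if_neg h, 0, by rw [xs, pe, if_neg h]; simp⟩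

theorem residues (N : ℕ) (a : ℤ) : ∃ (A : Finset ℕ) (c : ℤ), (∀ n ∈ A, 1 ≤ n ∧ lev w n ≤ N + 1) ∧
    a * hh (N + 1) = ∑ n ∈ A, xs w n + c * hh 1 := by
  classical
  induction N generalizing a with
  | zero => exact ⟨∅, a, by simp, by simp⟩
  | succ N ih =>
    rcases Int.even_or_odd' a with ⟨b, rfl | rfl⟩
    · obtain ⟨A, c, h1, h2⟩ := ih b
      refine ⟨A, c, fun n hn => ⟨(h1 n hn).1, (h1 n hn).2.trans (by omega)⟩, ?_⟩
      rw [← h2, hh_succ (N + 1)]
      push_cast
      ring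
    · obtain ⟨n, n1, n2, d, n3⟩ := exists_lev w N
      obtain ⟨A, c, h1, h2⟩ := ih (b - d)
      refine ⟨insert n A, c, fun i hi => ?_, ?_⟩
      · rcases Finset.mem_insert.1 hi with rfl | hi
        exacts [⟨n1, n2.le⟩, ⟨(h1 i hi).1, (h1 i hi).2.trans (by omega)⟩]
      · rw [Finset.sum_insert fun h => by have := (h1 n h).2; omega, add_assoc (xs w n), ← h2, n3,
          hh_succ (N + 1)]
        push_cast
        ring

open Pointwise in
theorem xs_interior : (interior (TT (xs w) 0)).Nonempty := by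
  have hc := TT_compact (summable_xs w)
  have hZ : IsClosed (range fun c : ℤ => c * hh 1) :=
    (((Homeomorph.mulRight₀ (hh 1) (hh_pos 1).ne').isClosedEmbedding).comp
      Int.isClosedEmbedding_coe_real).isClosed_range
  have hcl := hZ.add_left_of_isCompact hc
  have hall : ∀ y, y ∈ TT (xs w) 0 + range fun c : ℤ => c * hh 1 := fun y => by
    refine hcl.mem_of_tendsto (f := fun N => ⌊y / hh (N + 1)⌋ * hh (N + 1)) (b := atTop) ?_
      (Eventually.of_forall fun N => ?_)
    · have h : Tendsto (fun N => y - hh (N + 1)) atTop (𝓝 (y - 0)) :=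
        tendsto_const_nhds.sub (hh_zero.comp (tendsto_add_atTop_nat 1))
      rw [sub_zero] at h
      refine tendsto_of_tendsto_of_tendsto_of_le_of_le h tendsto_const_nhds (fun N => ?_) fun N => ?_
      · have := (div_lt_iff₀ (hh_pos (N + 1))).1 (Int.lt_floor_add_one (y / hh (N + 1)))
        simp only
        linarith
      · exact (le_div_iff₀ (hh_pos (N + 1))).1 (Int.floor_le _)
    · obtain ⟨A, c, h1, h2⟩ := residues w N ⌊y / hh (N + 1)⌋
      refine ⟨_, ⟨A, fun i hi => (h1 i hi).1, ?_⟩, _, ⟨c, rfl⟩, h2.symm⟩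
      exact (hasSum_subtype_iff_indicator (f := xs w)).1 (A.hasSum (xs w))
  obtain ⟨c, y, hy⟩ := nonempty_interior_of_iUnion_of_closed
    (f := fun c : ℤ => (Homeomorph.subRight (c * hh 1)) ⁻¹' TT (xs w) 0)
    (fun c => hc.isClosed.preimage (Homeomorph.continuous _)) (eq_univ_of_forall fun y => by
      obtain ⟨e, he, _, ⟨c, rfl⟩, rfl⟩ := hall y
      exact mem_iUnion.2 ⟨c, by simpa using he⟩)
  rw [← Homeomorph.preimage_interior] at hy
  exact ⟨_, hy⟩

theorem not_cantor {E : Set ℝ} (h : (interior E).Nonempty) : ¬ Nonempty (E ≃ₜ cantorSet) := by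
  rintro ⟨e⟩
  have h1 : TotallyDisconnectedSpace E :=
    ⟨(e.trans cantorSetHomeomorphNatToBool).isEmbedding.isTotallyDisconnected
      (isTotallyDisconnected_of_totallyDisconnectedSpace _)⟩
  obtain ⟨y, hy⟩ := h
  obtain ⟨ε, hε, hb⟩ := Metric.mem_nhds_iff.1 (mem_interior_iff_mem_nhds.1 hy)
  have h2 := totallyDisconnectedSpace_subtype_iff.1 h1 _ hb (convex_ball y ε).isPreconnected
    (Metric.mem_ball_self hε) (show y + ε / 2 ∈ Metric.ball y ε by
      rw [Metric.mem_ball, Real.dist_eq, abs_lt]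
      constructor <;> linarith)
  linarith

end Pool.Agent.P.MP_c19edd_an.Gen
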